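import Mathlib

namespace Pool.Agent.Lib.MP_f09365_an.N

open scoped ComplexOrder InnerProductSpace

universe u

section states

variable {C : Type u} [CStarAlgebra C]

/-- Contractive unital functionals attaining the norm of `a`. -/
def Face (a : C) : Set (C → ℂ) :=
  {φ | (∀ x y, φ (x + y) = φ x + φ y) ∧ (∀ (z : ℂ) x, φ (z • x) = z * φ x) ∧ φ 1 = 1 ∧
    (∀ x, ‖φ x‖ ≤ ‖x‖) ∧ (φ a).re = ‖a‖}

lemma face_compact (a : C) : IsCompact (Face a) := by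
  have h1 : IsCompact (Set.univ.pi fun x : C => Metric.closedBall (0 : ℂ) ‖x‖) :=
    isCompact_univ_pi fun x => isCompact_closedBall _ _
  refine h1.of_isClosed_subset ?_ ?_
  · unfold Face
    simp only [Set.ofPred_and, Set.ofPred_forall]
    refine IsClosed.inter ?_ (IsClosed.inter ?_ (IsClosed.inter ?_ (IsClosed.inter ?_ ?_)))
    · exact isClosed_iInter fun x => isClosed_iInter fun y =>
        isClosed_eq (by fun_prop) (by fun_prop)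
    · exact isClosed_iInter fun z => isClosed_iInter fun x =>
        isClosed_eq (by fun_prop) (by fun_prop)
    · exact isClosed_eq (by fun_prop) (by fun_prop)
    · exact isClosed_iInter fun x => isClosed_le (by fun_prop) (by fun_prop)
    · exact isClosed_eq (by fun_prop) (by fun_prop)
  · intro φ hφ x _
    simpa using hφ.2.2.2.1 x

lemma face_nonempty [Nontrivial C] [PartialOrder C] [StarOrderedRing C] (a : C) (ha : 0 ≤ a)
    (ha0 : a ≠ 0) : (Face a).Nonempty := by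
  have hpos : 0 < ‖a‖ := norm_pos_iff.mpr ha0
  have h1 : ‖a‖ ∈ spectrum ℝ a := CStarAlgebra.norm_mem_spectrum_of_nonneg ha
  have h2 : ‖a‖ + ‖a‖ ∈ spectrum ℝ (a + algebraMap ℝ C ‖a‖) := by
    rw [spectrum.mem_iff] at h1 ⊢
    rwa [map_add, add_sub_add_right_eq_sub]
  have h3 : ‖a‖ + ‖a‖ ≤ ‖a + algebraMap ℝ C ‖a‖‖ := by
    have := spectrum.norm_le_norm_of_mem h2
    rwa [Real.norm_of_nonneg (by positivity)] at this
  obtain ⟨g, hg, hga⟩ := exists_dual_vector'' ℂ (a + algebraMap ℝ C ‖a‖)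
  have hle : ∀ x, ‖g x‖ ≤ ‖x‖ := fun x =>
    (g.le_opNorm x).trans (mul_le_of_le_one_left (norm_nonneg _) hg)
  have e1 : algebraMap ℝ C ‖a‖ = ((‖a‖ : ℝ) : ℂ) • (1 : C) := by
    rw [Algebra.algebraMap_eq_smul_one, Complex.coe_smul]
  have h4 : (g a).re + ‖a‖ * (g 1).re = ‖a + algebraMap ℝ C ‖a‖‖ := by
    have := congrArg Complex.re hga
    rw [map_add] at this
    nth_rewrite 1 [e1] at this
    rw [map_smul] at this
    simpa using this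
  have h5 : (g a).re ≤ ‖a‖ := (Complex.re_le_norm _).trans (hle a)
  have h6 : ‖g 1‖ ≤ 1 := by simpa using hle 1
  have h7 : (g 1).re ≤ 1 := (Complex.re_le_norm _).trans h6
  have h8 : (g 1).re = 1 := by nlinarith
  have h9 : g 1 = 1 := by
    have h10 : ‖g 1‖ ^ 2 ≤ 1 := by nlinarith [norm_nonneg (g 1)]
    rw [Complex.sq_norm, Complex.normSq_apply, h8] at h10
    apply Complex.ext
    · simpa using h8
    · simp only [Complex.one_im]; nlinarith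
  refine ⟨fun x => g x, fun x y => map_add g x y, fun z x => by simp, h9, hle, ?_⟩
  show (g a).re = ‖a‖
  rw [h8] at h4
  linarith

lemma face_im {a : C} {φ : C → ℂ} (hφ : φ ∈ Face a) {b : C} (hb : IsSelfAdjoint b) :
    (φ b).im = 0 := by
  obtain ⟨h1, h2, h3, h4, -⟩ := hφ
  have key : ∀ t : ℝ, ‖φ b‖ ^ 2 + 2 * t * (φ b).im ≤ ‖b‖ ^ 2 := by
    intro t
    have e1 : φ (b + ((t : ℂ) * Complex.I) • (1 : C)) = φ b + t * Complex.I := by
      rw [h1, h2, h3, mul_one]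
    have e2 : star (b + ((t : ℂ) * Complex.I) • (1 : C)) * (b + ((t : ℂ) * Complex.I) • (1 : C))
        = star b * b + ((t ^ 2 : ℝ) : ℂ) • (1 : C) := by
      have : star (((t : ℂ) * Complex.I) • (1 : C)) = (-((t : ℂ) * Complex.I)) • (1 : C) := by
        simp
      rw [star_add, this, hb.star_eq]
      have e3 : ((t ^ 2 : ℝ) : ℂ) = -((t : ℂ) * Complex.I) * ((t : ℂ) * Complex.I) := by
        push_cast
        linear_combination (t : ℂ) ^ 2 * Complex.I_mul_I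
      rw [e3]
      simp only [add_mul, mul_add, smul_mul_assoc, mul_smul_comm, one_mul, mul_one, smul_add,
        smul_smul, neg_smul, neg_mul, smul_neg]
      abel
    have e4 : ‖b + ((t : ℂ) * Complex.I) • (1 : C)‖ ^ 2 ≤ ‖b‖ ^ 2 + t ^ 2 := by
      rw [sq, ← CStarRing.norm_star_mul_self, e2]
      refine (norm_add_le _ _).trans ?_
      rw [CStarRing.norm_star_mul_self, ← sq, norm_smul]
      have : ‖(1 : C)‖ ≤ 1 := by
        rcases subsingleton_or_nontrivial C with h | h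
        · simp [Subsingleton.elim (1 : C) 0]
        · simp
      have e5 : ‖((t ^ 2 : ℝ) : ℂ)‖ = t ^ 2 := by
        rw [Complex.norm_real, Real.norm_of_nonneg (sq_nonneg t)]
      rw [e5]
      nlinarith [sq_nonneg t]
    have e6 := h4 (b + ((t : ℂ) * Complex.I) • (1 : C))
    rw [e1] at e6
    have e7 : ‖φ b + t * Complex.I‖ ^ 2 ≤ ‖b‖ ^ 2 + t ^ 2 :=
      (pow_le_pow_left₀ (norm_nonneg _) e6 2).trans e4
    rw [Complex.sq_norm, Complex.normSq_apply] at e7 ⊢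
    simp at e7
    nlinarith
  by_contra hne
  have h5 := key ((‖b‖ ^ 2 + 1) / (2 * (φ b).im))
  have h6 : 2 * ((‖b‖ ^ 2 + 1) / (2 * (φ b).im)) * (φ b).im = ‖b‖ ^ 2 + 1 := by
    field_simp
  rw [h6] at h5
  nlinarith [sq_nonneg ‖φ b‖]

lemma face_nonneg [PartialOrder C] [StarOrderedRing C] {a : C} {φ : C → ℂ} (hφ : φ ∈ Face a)
    {b : C} (hb : 0 ≤ b) : 0 ≤ φ b := by
  have him := face_im hφ hb.isSelfAdjoint
  obtain ⟨h1, h2, h3, h4, -⟩ := hφ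
  have e0 : b ≤ algebraMap ℝ C ‖b‖ := hb.isSelfAdjoint.le_algebraMap_norm_self
  have e1 : ‖algebraMap ℝ C ‖b‖ - b‖ ≤ ‖b‖ := by
    rw [CStarAlgebra.norm_le_iff_le_algebraMap _ (norm_nonneg b) (sub_nonneg.mpr e0)]
    exact sub_le_self _ hb
  have e2 : algebraMap ℝ C ‖b‖ - b = ((‖b‖ : ℝ) : ℂ) • (1 : C) + (-1 : ℂ) • b := by
    rw [Algebra.algebraMap_eq_smul_one, Complex.coe_smul]; simp [sub_eq_add_neg]
  have e3 := (h4 _).trans e1
  rw [e2, h1, h2, h2, h3] at e3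
  have e4 := (Complex.re_le_norm _).trans e3
  simp at e4
  rw [Complex.nonneg_iff]
  exact ⟨e4, him.symm⟩

end states

section hilbert

variable {C : Type u} [CStarAlgebra C] {H : Type*} [NormedAddCommGroup H] [InnerProductSpace ℂ H]
  [CompleteSpace H]

lemma vec_mem_face (π : C →⋆ₐ[ℂ] (H →L[ℂ] H)) (η : H) (hη : η ≠ 0) :
    let ψ : C → ℂ := fun x => ((‖η‖ ^ 2 : ℝ) : ℂ)⁻¹ * ⟪η, π x η⟫_ℂ
    (∀ x y, ψ (x + y) = ψ x + ψ y) ∧ (∀ (z : ℂ) x, ψ (z • x) = z * ψ x) ∧ ψ 1 = 1 ∧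
      (∀ x, ‖ψ x‖ ≤ ‖x‖) := by
  intro ψ
  have hn : 0 < ‖η‖ := norm_pos_iff.mpr hη
  refine ⟨fun x y => ?_, fun z x => ?_, ?_, fun x => ?_⟩
  · simp [ψ, mul_add]
  · simp only [ψ, map_smul, smul_apply, inner_smul_right]; ring
  · simp only [ψ, map_one, one_apply_eq_self, inner_self_eq_norm_sq_to_K]
    have : ((‖η‖ : ℝ) : ℂ) ≠ 0 := by exact_mod_cast hn.ne'
    push_cast
    exact inv_mul_cancel₀ (pow_ne_zero 2 this)
  · simp only [ψ, norm_mul, norm_inv, Complex.norm_real]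
    rw [Real.norm_of_nonneg (sq_nonneg _), inv_mul_le_iff₀ (by positivity)]
    have h1 := norm_inner_le_norm (𝕜 := ℂ) η (π x η)
    have h2 := (π x).le_opNorm η
    have h3 : ‖π x‖ ≤ ‖x‖ := NonUnitalStarAlgHom.norm_apply_le π x
    have h4 : ‖π x η‖ ≤ ‖x‖ * ‖η‖ := h2.trans (mul_le_mul_of_nonneg_right h3 hn.le)
    nlinarith [mul_le_mul_of_nonneg_left h4 hn.le]

lemma irr_of_extreme (a : C) (π : C →⋆ₐ[ℂ] (H →L[ℂ] H)) (ξ : H)
    (hd : Dense (Set.range fun x => π x ξ))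
    (hext : (fun x => ⟪ξ, π x ξ⟫_ℂ) ∈ (Face a).extremePoints ℝ)
    (K : Submodule ℂ H) (hK : IsClosed (K : Set H)) (hinv : ∀ b, ∀ x ∈ K, π b x ∈ K) :
    K = ⊥ ∨ K = ⊤ := by
  have : CompleteSpace K := hK.completeSpace_coe
  have hinv' : ∀ b, ∀ x ∈ Kᗮ, π b x ∈ Kᗮ := by
    intro b x hx
    rw [Submodule.mem_orthogonal] at hx ⊢
    intro y hy
    have : π b = ContinuousLinearMap.adjoint (π (star b)) := by
      rw [map_star, ContinuousLinearMap.star_eq_adjoint, ContinuousLinearMap.adjoint_adjoint]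
    rw [this, ContinuousLinearMap.adjoint_inner_right]
    exact hx _ (hinv _ _ hy)
  have top_of : ∀ L : Submodule ℂ H, IsClosed (L : Set H) → (∀ b, ∀ x ∈ L, π b x ∈ L) →
      ξ ∈ L → L = ⊤ := by
    intro L hL hLi hξ
    rw [eq_top_iff]
    intro y _
    have h1 : Set.range (fun x => π x ξ) ⊆ (L : Set H) := by
      rintro _ ⟨x, rfl⟩
      exact hLi _ _ hξ
    exact hL.closure_subset_iff.mpr h1 (hd y)
  obtain ⟨η, hη, ζ, hζ, hsum⟩ := K.exists_add_mem_mem_orthogonal ξ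
  by_cases h0 : η = 0
  · left
    have := top_of Kᗮ K.isClosed_orthogonal hinv' (by rw [hsum, h0, zero_add]; exact hζ)
    exact (Submodule.orthogonal_eq_top_iff K).mp this
  by_cases h1 : ζ = 0
  · right
    exact top_of K hK hinv (by rw [hsum, h1, add_zero]; exact hη)
  exfalso
  have o1 : ∀ x, ⟪η, π x ζ⟫_ℂ = 0 := fun x =>
    Submodule.inner_right_of_mem_orthogonal hη (hinv' _ _ hζ)
  have o2 : ∀ x, ⟪ζ, π x η⟫_ℂ = 0 := fun x =>
    Submodule.inner_left_of_mem_orthogonal (hinv _ _ hη) hζ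
  have hdec : ∀ x, ⟪ξ, π x ξ⟫_ℂ = ⟪η, π x η⟫_ℂ + ⟪ζ, π x ζ⟫_ℂ := by
    intro x
    rw [hsum, map_add, inner_add_left, inner_add_right, inner_add_right, o1, o2]
    ring
  obtain ⟨hF, hE⟩ := mem_extremePoints_iff_left.mp hext
  obtain ⟨p1, p2, p3, p4⟩ := vec_mem_face π η h0
  obtain ⟨q1, q2, q3, q4⟩ := vec_mem_face π ζ h1
  have hs : 0 < ‖η‖ ^ 2 := pow_pos (norm_pos_iff.mpr h0) 2
  have ht : 0 < ‖ζ‖ ^ 2 := pow_pos (norm_pos_iff.mpr h1) 2
  have hst : ‖η‖ ^ 2 + ‖ζ‖ ^ 2 = 1 := by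
    have e1 : ⟪ξ, π 1 ξ⟫_ℂ = 1 := hF.2.2.1
    rw [hdec, map_one, one_apply_eq_self, one_apply_eq_self,
      inner_self_eq_norm_sq_to_K, inner_self_eq_norm_sq_to_K] at e1
    have e2 : ((‖η‖ ^ 2 + ‖ζ‖ ^ 2 : ℝ) : ℂ) = ((1 : ℝ) : ℂ) := by
      push_cast
      exact e1
    exact Complex.ofReal_injective e2
  have hsC : ((‖η‖ ^ 2 : ℝ) : ℂ) ≠ 0 := by exact_mod_cast hs.ne'
  have htC : ((‖ζ‖ ^ 2 : ℝ) : ℂ) ≠ 0 := by exact_mod_cast ht.ne'
  have hcomb : ∀ x, ⟪ξ, π x ξ⟫_ℂ =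
      ((‖η‖ ^ 2 : ℝ) : ℂ) * (((‖η‖ ^ 2 : ℝ) : ℂ)⁻¹ * ⟪η, π x η⟫_ℂ) +
      ((‖ζ‖ ^ 2 : ℝ) : ℂ) * (((‖ζ‖ ^ 2 : ℝ) : ℂ)⁻¹ * ⟪ζ, π x ζ⟫_ℂ) := by
    intro x
    rw [mul_inv_cancel_left₀ hsC, mul_inv_cancel_left₀ htC, hdec]
  have r1 : (((‖η‖ ^ 2 : ℝ) : ℂ)⁻¹ * ⟪η, π a η⟫_ℂ).re ≤ ‖a‖ := (Complex.re_le_norm _).trans (p4 a)
  have r2 : (((‖ζ‖ ^ 2 : ℝ) : ℂ)⁻¹ * ⟪ζ, π a ζ⟫_ℂ).re ≤ ‖a‖ := (Complex.re_le_norm _).trans (q4 a)
  have r3 : (⟪ξ, π a ξ⟫_ℂ).re = ‖a‖ := hF.2.2.2.2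
  rw [hcomb, Complex.add_re, Complex.re_ofReal_mul, Complex.re_ofReal_mul] at r3
  have aux : ∀ s t p q m : ℝ, 0 < s → 0 < t → s + t = 1 → p ≤ m → q ≤ m → s * p + t * q = m →
      p = m := by
    intro s t p q m a1 a2 a3 a4 a5 a6
    have b1 : s * (m - p) + t * (m - q) = 0 := by linear_combination m * a3 - a6
    have b2 : 0 ≤ s * (m - p) := mul_nonneg a1.le (sub_nonneg.mpr a4)
    have b3 : 0 ≤ t * (m - q) := mul_nonneg a2.le (sub_nonneg.mpr a5)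
    have b4 : s * (m - p) = 0 := by linarith
    rcases mul_eq_zero.mp b4 with h | h <;> linarith
  have r4 := aux _ _ _ _ _ hs ht hst r1 r2 r3
  have r5 := aux _ _ _ _ _ ht hs (by linarith) r2 r1 (by linarith)
  have hE1 := hE (fun x => ((‖η‖ ^ 2 : ℝ) : ℂ)⁻¹ * ⟪η, π x η⟫_ℂ) ⟨p1, p2, p3, p4, r4⟩
    (fun x => ((‖ζ‖ ^ 2 : ℝ) : ℂ)⁻¹ * ⟪ζ, π x ζ⟫_ℂ) ⟨q1, q2, q3, q4, r5⟩
    ⟨‖η‖ ^ 2, ‖ζ‖ ^ 2, hs, ht, hst, by
      funext x
      simp only [Pi.add_apply, Pi.smul_apply, Complex.real_smul]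
      exact (hcomb x).symm⟩
  have hz : ∀ x, ⟪η - ((‖η‖ ^ 2 : ℝ) : ℂ) • ξ, π x ξ⟫_ℂ = 0 := by
    intro x
    have e1 : ((‖η‖ ^ 2 : ℝ) : ℂ)⁻¹ * ⟪η, π x η⟫_ℂ = ⟪ξ, π x ξ⟫_ℂ := congrFun hE1 x
    have e2 : ⟪η, π x ξ⟫_ℂ = ⟪η, π x η⟫_ℂ := by
      conv_lhs => rw [hsum, map_add, inner_add_right, o1, add_zero]
    rw [inner_sub_left, inner_smul_left, Complex.conj_ofReal, ← e1, mul_inv_cancel_left₀ hsC, e2,
      sub_self]
  have hz2 : ∀ y, ⟪η - ((‖η‖ ^ 2 : ℝ) : ℂ) • ξ, y⟫_ℂ = 0 := by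
    intro y
    have hc : IsClosed {y : H | ⟪η - ((‖η‖ ^ 2 : ℝ) : ℂ) • ξ, y⟫_ℂ = 0} :=
      isClosed_eq (by fun_prop) continuous_const
    have h1 : Set.range (fun x => π x ξ) ⊆ {y : H | ⟪η - ((‖η‖ ^ 2 : ℝ) : ℂ) • ξ, y⟫_ℂ = 0} := by
      rintro _ ⟨x, rfl⟩
      exact hz x
    exact hc.closure_subset_iff.mpr h1 (hd y)
  have e3 := hz2 ζ
  have e4 : ⟪η, ζ⟫_ℂ = 0 := Submodule.inner_right_of_mem_orthogonal hη hζ
  have e5 : ⟪ξ, ζ⟫_ℂ = ((‖ζ‖ ^ 2 : ℝ) : ℂ) := by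
    conv_lhs => rw [hsum, inner_add_left, e4, zero_add, inner_self_eq_norm_sq_to_K]
    push_cast
    rfl
  rw [inner_sub_left, inner_smul_left, Complex.conj_ofReal, e4, e5, zero_sub, neg_eq_zero] at e3
  exact mul_ne_zero hsC htC e3

end hilbert

/-- Irreducible representations separate the points of a unital C*-algebra. -/
theorem irr_sep {C : Type u} [CStarAlgebra C] (c : C) (hc : c ≠ 0) :
    ∃ (H : Type u) (_ : NormedAddCommGroup H) (_ : InnerProductSpace ℂ H) (_ : CompleteSpace H)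
      (π : C →⋆ₐ[ℂ] (H →L[ℂ] H)),
      (∀ K : Submodule ℂ H, IsClosed (K : Set H) → (∀ b, ∀ x ∈ K, π b x ∈ K) → K = ⊥ ∨ K = ⊤) ∧
        π c ≠ 0 := by
  have : Nontrivial C := nontrivial_of_ne c 0 hc
  let := CStarAlgebra.spectralOrder C
  have := CStarAlgebra.spectralOrderedRing C
  have ha0 : star c * c ≠ 0 := fun h => hc ((CStarRing.star_mul_self_eq_zero_iff c).mp h)
  obtain ⟨φ, hφ⟩ := (face_compact (star c * c)).extremePoints_nonempty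
    (face_nonempty _ (star_mul_self_nonneg c) ha0)
  have hF : φ ∈ Face (star c * c) := hφ.1
  let l : C →ₗ[ℂ] ℂ :=
    { toFun := φ, map_add' := hF.1, map_smul' := fun z x => hF.2.1 z x }
  let f : C →ₚ[ℂ] ℂ := PositiveLinearMap.mk₀ l fun x hx => face_nonneg hF hx
  let ξ : f.GNS := ((f.toPreGNS 1 : f.PreGNS) : f.GNS)
  have hπ : ∀ x, f.gnsStarAlgHom x ξ = ((f.toPreGNS x : f.PreGNS) : f.GNS) := by
    intro x
    have : f.gnsStarAlgHom x = f.gnsNonUnitalStarAlgHom x := rfl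
    rw [this, PositiveLinearMap.gnsNonUnitalStarAlgHom_apply_coe]
    congr 1
    show f.toPreGNS (x * 1) = _
    rw [mul_one]
  have hin : (fun x => ⟪ξ, f.gnsStarAlgHom x ξ⟫_ℂ) = φ := by
    funext x
    rw [hπ, UniformSpace.Completion.inner_coe, PositiveLinearMap.preGNS_inner_def]
    show φ (star 1 * x) = φ x
    rw [star_one, one_mul]
  have hd : Dense (Set.range fun x => f.gnsStarAlgHom x ξ) := by
    have h1 : DenseRange ((↑) : f.PreGNS → f.GNS) := UniformSpace.Completion.denseRange_coe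
    refine h1.mono ?_
    rintro _ ⟨y, rfl⟩
    exact ⟨f.ofPreGNS y, hπ _⟩
  refine ⟨f.GNS, inferInstance, inferInstance, inferInstance, f.gnsStarAlgHom,
    irr_of_extreme (star c * c) _ ξ hd (hin ▸ hφ), fun h0 => ?_⟩
  have e1 : (φ (star c * c)).re = ‖star c * c‖ := hF.2.2.2.2
  rw [← hin] at e1
  simp only [map_mul, h0, mul_zero, zero_apply, inner_zero_right,
    Complex.zero_re] at e1
  exact ha0 (norm_eq_zero.mp e1.symm)

end Pool.Agent.Lib.MP_f09365_an.N
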