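import Pool.Agent.Lib.MP_f09365_an.N.Arcs
import Pool.Agent.Lib.MP_f09365_an.N.IrrSep

namespace Pool.Agent.Lib.MP_f09365_an.N

open scoped CStarAlgebra

universe u

/-- The iterated commutator. -/
def word {G : Type*} [Group G] (w : G) (x : ℕ → G) : ℕ → G
  | 0 => w
  | m + 1 => (x m)⁻¹ * word w x m * x m * (word w x m)⁻¹

lemma map_word {G G' : Type*} [Group G] [Group G'] (f : G →* G') (w : G) (x : ℕ → G) (m : ℕ) :
    f (word w x m) = word (f w) (fun i => f (x i)) m := by
  induction m with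
  | zero => rfl
  | succ m ih => simp [word, ih]

lemma word_eq_one {G : Type*} [Group G] (w : G) (x : ℕ → G) {i m : ℕ} (hi : x i = 1)
    (him : i < m) : word w x m = 1 := by
  induction m, him using Nat.le_induction with
  | base => simp [word, hi]
  | succ m _ ih => simp [word, ih]

lemma joined_word {G : Type*} [Group G] [TopologicalSpace G] [IsTopologicalGroup G] {w w' : G}
    {x x' : ℕ → G} (hw : Joined w w') (hx : ∀ i, Joined (x i) (x' i)) (m : ℕ) :
    Joined (word w x m) (word w' x' m) := by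
  induction m with
  | zero => exact hw
  | succ m ih => exact (((hx m).inv.mul ih).mul (hx m)).mul ih.inv

/-- In a subhomogeneous algebra the long words are in the path component of the identity. -/
lemma word_joined_one {C : Type u} [CStarAlgebra C] (N : ℕ)
    (hN : ∀ (H : Type u) [NormedAddCommGroup H] [InnerProductSpace ℂ H] [CompleteSpace H]
      (π : C →⋆ₐ[ℂ] (H →L[ℂ] H)),
      (∀ K : Submodule ℂ H, IsClosed (K : Set H) → (∀ b, ∀ x ∈ K, π b x ∈ K) → K = ⊥ ∨ K = ⊤) →
      Module.rank ℂ H ≤ N)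
    (w u₀ u₁ : Cˣ) (m : ℕ) (hm : 2 * N < m) :
    Joined (word w (fun i => if i % 2 = 0 then u₀ else u₁) m) 1 := by
  obtain ⟨y, hy, hy'⟩ := arcs.{u, u} u₀ N
  let x : ℕ → Cˣ := fun i =>
    if i % 2 = 0 then (if h : i / 2 < N + 1 then y ⟨i / 2, h⟩ else u₀) else u₁
  have h1 : word w x m = 1 := by
    by_contra h
    obtain ⟨H, _, _, _, π, hπ, hne⟩ := irr_sep (((word w x m : Cˣ) : C) - 1)
      (sub_ne_zero.2 fun h' => h (Units.ext h'))
    obtain ⟨i, hi⟩ := hy' H π (hN H π hπ)
    have h2 : Units.map (π : C →* (H →L[ℂ] H)) (word w x m) = 1 := by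
      rw [map_word]
      refine word_eq_one _ _ (i := 2 * i) (Units.ext ?_) (by omega)
      have : x (2 * i) = y i := by
        have h3 : 2 * (i : ℕ) / 2 = i := by omega
        simp only [x, Nat.mul_mod_right, h3, i.2, if_true, dif_pos]
      rw [this]
      exact hi
    refine hne ?_
    rw [map_sub, map_one, sub_eq_zero]
    exact congrArg Units.val h2
  rw [← h1]
  refine joined_word (Joined.refl w) (fun i => ?_) m
  simp only [x]
  split_ifs
  · exact hy _
  · exact Joined.refl _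
  · exact Joined.refl _

/-- One stage: units close to the range of a subhomogeneous algebra. -/
lemma word_joined_stage {A : Type u} [CStarAlgebra A] {B : Type*} [NonUnitalCStarAlgebra B]
    (ι : B →⋆ₙₐ[ℂ] A) (N : ℕ)
    (hN : ∀ (H : Type u) [NormedAddCommGroup H] [InnerProductSpace ℂ H] [CompleteSpace H]
      (π : B →⋆ₙₐ[ℂ] (H →L[ℂ] H)), π ≠ 0 →
      (∀ K : Submodule ℂ H, IsClosed (K : Set H) → (∀ b, ∀ x ∈ K, π b x ∈ K) → K = ⊥ ∨ K = ⊤) →
      Module.rank ℂ H ≤ N)
    (w u₀ u₁ : Aˣ) (hw : (w : A) ∈ Set.range ι) (h₀ : (u₀ : A) ∈ Set.range ι)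
    (h₁ : (u₁ : A) ∈ Set.range ι) (m : ℕ) (hm : 2 * (N + 1) < m) :
    Joined (word w (fun i => if i % 2 = 0 then u₀ else u₁) m) 1 := by
  let C₀ : StarSubalgebra ℂ A :=
    { carrier := {a | ∃ b, ∃ z : ℂ, a = ι b + z • 1}
      mul_mem' := by
        rintro _ _ ⟨b, z, rfl⟩ ⟨b', z', rfl⟩
        exact ⟨b * b' + z' • b + z • b', z * z', by
          simp only [map_add, map_mul, map_smul, add_mul, mul_add, smul_mul_assoc, mul_smul_comm,
            one_mul, mul_one, smul_smul, smul_add, mul_comm z z']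
          abel⟩
      add_mem' := by
        rintro _ _ ⟨b, z, rfl⟩ ⟨b', z', rfl⟩
        exact ⟨b + b', z + z', by rw [map_add, add_smul]; abel⟩
      algebraMap_mem' := fun z => ⟨0, z, by simp [Algebra.algebraMap_eq_smul_one]⟩
      star_mem' := by
        rintro _ ⟨b, z, rfl⟩
        exact ⟨star b, star z, by simp [map_star]⟩ }
  let C := C₀.topologicalClosure
  have hC : IsClosed (C : Set A) := C₀.isClosed_topologicalClosure
  have hmem : ∀ b, ι b ∈ C := fun b => C₀.le_topologicalClosure ⟨b, 0, by simp⟩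
  let ι' : B →⋆ₙₐ[ℂ] C :=
    { toFun := fun b => ⟨ι b, hmem b⟩
      map_smul' := fun z b => Subtype.ext (map_smul ι z b)
      map_zero' := Subtype.ext (map_zero ι)
      map_add' := fun a b => Subtype.ext (map_add ι a b)
      map_mul' := fun a b => Subtype.ext (map_mul ι a b)
      map_star' := fun a => Subtype.ext (map_star ι a) }
  have hu : ∀ v : Aˣ, (v : A) ∈ Set.range ι → ∃ c : Cˣ, Units.map (C.subtype : C →* A) c = v := by
    rintro v ⟨b, hb⟩
    have : IsUnit (ι' b) := (StarSubalgebra.coe_isUnit C).1 (by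
      rw [show ((ι' b : C) : A) = v from hb]; exact v.isUnit)
    exact ⟨this.unit, Units.ext hb⟩
  obtain ⟨w', rfl⟩ := hu w hw
  obtain ⟨v₀, rfl⟩ := hu u₀ h₀
  obtain ⟨v₁, rfl⟩ := hu u₁ h₁
  have key := word_joined_one (C := C) (N + 1) (fun H _ _ _ π hπ => ?_) w' v₀ v₁ m hm
  · have := key.map (f := Units.map (C.subtype : C →* A))
      (Continuous.units_map _ continuous_subtype_val)
    rw [map_word, map_one] at this
    simpa only [apply_ite] using this
  · let π' : B →⋆ₙₐ[ℂ] (H →L[ℂ] H) := (π : C →⋆ₙₐ[ℂ] (H →L[ℂ] H)).comp ι'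
    have hirr : ∀ K : Submodule ℂ H, IsClosed (K : Set H) → (∀ b, ∀ x ∈ K, π' b x ∈ K) →
        K = ⊥ ∨ K = ⊤ := by
      intro K hK hinv
      refine hπ K hK fun c x hx => ?_
      have hd : Dense {c : C | (c : A) ∈ C₀} := Subtype.dense_iff.2 (closure_mono fun a ha =>
        ⟨⟨a, C₀.le_topologicalClosure ha⟩, ha, rfl⟩)
      have hc : Continuous fun c : C => π c x := (map_continuous π).clm_apply continuous_const
      refine hd.induction (P := fun c => π c x ∈ K) ?_ (hK.preimage hc) c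
      rintro c ⟨b, z, hc⟩
      have : c = ι' b + z • 1 := Subtype.ext hc
      rw [this, map_add, map_smul, map_one]
      exact K.add_mem (hinv b x hx) (K.smul_mem z hx)
    by_cases h0 : π' = 0
    · refine le_trans ?_ (show (1 : Cardinal) ≤ (N + 1 : ℕ) by simp)
      rw [rank_le_one_iff]
      by_cases hH : ∃ x : H, x ≠ 0
      · obtain ⟨x, hx⟩ := hH
        rcases hirr (ℂ ∙ x) (Submodule.closed_of_finiteDimensional _) (by simp [h0]) with h | h
        · exact absurd (Submodule.span_singleton_eq_bot.1 h) hx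
        · exact ⟨x, fun v => Submodule.mem_span_singleton.1 (h ▸ Submodule.mem_top)⟩
      · push Not at hH
        exact ⟨0, fun v => ⟨0, by simp [hH v]⟩⟩
    · exact (hN H π' h0 hirr).trans (by simp)

/-- The obstruction: in an approximately subhomogeneous unital algebra all long words are in the
path component of the identity of the invertible group. -/
theorem thm1 {A : Type u} [CStarAlgebra A] {B : ℕ → Type*} [∀ n, NonUnitalCStarAlgebra (B n)]
    (ι : ∀ n, B n →⋆ₙₐ[ℂ] A) (hmono : ∀ n, Set.range (ι n) ⊆ Set.range (ι (n + 1)))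
    (hdense : Dense (⋃ n, Set.range (ι n)))
    (hsub : ∀ n, ∃ N : ℕ, ∀ (H : Type u) [NormedAddCommGroup H] [InnerProductSpace ℂ H]
      [CompleteSpace H] (π : B n →⋆ₙₐ[ℂ] (H →L[ℂ] H)), π ≠ 0 →
      (∀ K : Submodule ℂ H, IsClosed (K : Set H) → (∀ b, ∀ x ∈ K, π b x ∈ K) → K = ⊥ ∨ K = ⊤) →
      Module.rank ℂ H ≤ N)
    (w u₀ u₁ : Aˣ) :
    ∃ m₀, ∀ m, m₀ ≤ m → Joined (word w (fun i => if i % 2 = 0 then u₀ else u₁) m) 1 := by
  have hm : Monotone fun n => Set.range (ι n) := monotone_nat_of_le_succ hmono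
  have hu : ∀ v : Aˣ, ∃ n, ∃ v' : Aˣ, (v' : A) ∈ Set.range (ι n) ∧ Joined v v' := by
    intro v
    obtain ⟨ε, hε, h⟩ := joined_near v
    obtain ⟨b, hb, hb'⟩ := hdense.exists_dist_lt (v : A) hε
    obtain ⟨n, hn⟩ := Set.mem_iUnion.1 hb
    obtain ⟨v', rfl, hv⟩ := h b (by rwa [dist_comm])
    exact ⟨n, v', hn, hv⟩
  obtain ⟨a, w', hw, hw'⟩ := hu w
  obtain ⟨b, v₀, h₀, h₀'⟩ := hu u₀
  obtain ⟨c, v₁, h₁, h₁'⟩ := hu u₁
  obtain ⟨N, hN⟩ := hsub (a + b + c)
  refine ⟨2 * (N + 1) + 1, fun m hm' => Joined.trans (joined_word hw' (fun i => ?_) m)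
    (word_joined_stage (ι _) N hN w' v₀ v₁ (hm (by omega) hw) (hm (by omega) h₀)
      (hm (by omega) h₁) m hm')⟩
  split_ifs
  · exact h₀'
  · exact h₁'

end Pool.Agent.Lib.MP_f09365_an.N
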