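import Pool.Agent.Lib.MP_f09365_an.Ash.PBU

namespace Pool.Agent.Lib.MP_f09365_an.N

open Finset Metric Pool.Agent.Lib.MP_f09365_an.Ash

variable {K I S : Type*} [Fintype K] [DecidableEq K] [Fintype I] [DecidableEq I] [Fintype S]

/-- Product Borsuk-Ulam theorem for maps defined on the product of spheres only. -/
lemma pbu_sub (τ : I → K) (σ : S → K) (hcard : ∀ k, #{s | σ s = k} < #{i | τ i = k})
    (g : Sph τ → S → ℝ) (hg : Continuous g)
    (hodd : ∀ k (x x' : Sph τ), x'.1 = flp τ k x.1 → g x' = flp σ k (g x)) : ∃ x, g x = 0 := by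
  classical
  let f : (I → ℝ) → S → ℝ := fun x => if h : x ∈ Sph τ then g ⟨x, h⟩ else 0
  have hf : ∀ x : Sph τ, f x.1 = g x := fun x => dif_pos x.2
  have hm : ∀ k, ∀ x ∈ Sph τ, flp τ k x ∈ Sph τ := fun k x hx l => by
    rw [← hx l]
    exact sum_congr rfl fun i _ => by rw [← sq_abs, abs_flp, sq_abs]
  obtain ⟨x, hx, h0⟩ := pbu τ σ hcard f
    (continuousOn_iff_continuous_domRestrict.2 (hg.congr fun x => (hf x).symm))
    (fun k x hx => by
      rw [hf ⟨x, hx⟩, hf ⟨_, hm k x hx⟩]
      exact hodd k _ _ rfl)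
  exact ⟨⟨x, hx⟩, (hf ⟨x, hx⟩).symm.trans h0⟩

/-- The sign change on the second factor. -/
def act {V : Type*} (σ : S → K) (k : K) (w : V × (S → ℂ)) : V × (S → ℂ) :=
  (w.1, fun s => if σ s = k then -w.2 s else w.2 s)

/-- Real and imaginary part. -/
def ri (z : ℂ) (b : Bool) : ℝ := if b then z.im else z.re

lemma ri_neg (z : ℂ) (b : Bool) : ri (-z) b = -ri z b := by
  unfold ri
  split_ifs <;> simp

lemma eq_zero_of_ri {z : ℂ} (h : ∀ b, ri z b = 0) : z = 0 :=
  Complex.ext (by simpa [ri] using h false) (by simpa [ri] using h true)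

lemma continuous_ri (b : Bool) : Continuous fun z => ri z b := by
  unfold ri
  split_ifs
  · exact Complex.continuous_im
  · exact Complex.continuous_re

lemma top_disc {N : Type*} [Fintype N] [DecidableEq N] (τ : I → K) (σ : S → K)
    (hcard : ∀ k, 2 * #{s | σ s = k} < #{i | τ i = k})
    (Φ : (N → ℂ) × Sph τ → (N → ℂ) × (S → ℂ)) (hc : Continuous Φ) (hne : ∀ p, Φ p ≠ 0)
    (hfl : ∀ k z (y y' : Sph τ), y'.1 = flp τ k y.1 → Φ (z, y') = act σ k (Φ (z, y)))
    (R : ℝ) (hR : 0 ≤ R) (hout : ∀ z y, R ≤ ‖z‖ → Φ (z, y) = (z, 0)) : False := by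
  classical
  let τ' : Option (N × Bool) ⊕ I → Option K := Sum.elim (fun _ => none) fun i => some (τ i)
  let σ' : (N × Bool) ⊕ (S × Bool) → Option K := Sum.elim (fun _ => none) fun s => some (σ s.1)
  have hcard' : ∀ k, #{s | σ' s = k} < #{i | τ' i = k} := by
    intro k
    rw [card_filter, card_filter, Fintype.sum_sum_type, Fintype.sum_sum_type]
    cases k with
    | none => simp [τ', σ']
    | some k =>
      have h := hcard k
      rw [card_filter, card_filter] at h
      simp only [τ', σ', Sum.elim_inl, Sum.elim_inr, reduceCtorEq, if_false, sum_const_zero,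
        zero_add, Option.some.injEq]
      rw [Fintype.sum_prod_type]
      simp only [Fintype.sum_bool, ← two_mul]
      rwa [← mul_sum]
  let M : ℝ := R * (Fintype.card N + 1)
  let v : Sph τ' → N → ℂ := fun x n =>
    ⟨x.1 (Sum.inl (some (n, false))), x.1 (Sum.inl (some (n, true)))⟩
  let r : Sph τ' → ℝ := fun x => x.1 (Sum.inl none)
  have hy : ∀ x : Sph τ', (fun i => x.1 (Sum.inr i)) ∈ Sph τ := by
    intro x k
    have h := x.2 (some k)
    rw [sum_filter, Fintype.sum_sum_type] at h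
    rw [sum_filter]
    simpa [τ'] using h
  let y : Sph τ' → Sph τ := fun x => ⟨_, hy x⟩
  have hco : ∀ i, Continuous fun x : Sph τ' => x.1 i := fun i =>
    (continuous_apply i).comp continuous_subtype_val
  have hvc : Continuous v := continuous_pi fun n => by
    have : (fun x => v x n) = fun x : Sph τ' => (x.1 (Sum.inl (some (n, false))) : ℂ) +
        (x.1 (Sum.inl (some (n, true))) : ℂ) * Complex.I := by
      ext x
      exact Complex.mk_eq_add_mul_I _ _
    rw [this]
    exact (Complex.continuous_ofReal.comp (hco _)).add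
      ((Complex.continuous_ofReal.comp (hco _)).mul continuous_const)
  have hrc : Continuous r := hco _
  have hyc : Continuous y := Continuous.subtype_mk (continuous_pi fun i => hco _) _
  have heq : ∀ x, r x = 0 → R ≤ ‖M • v x‖ := by
    intro x hx
    have h := x.2 none
    rw [sum_filter, Fintype.sum_sum_type, Fintype.sum_option, Fintype.sum_prod_type] at h
    have hx' : x.1 (Sum.inl none) = 0 := hx
    simp only [τ', Sum.elim_inl, Sum.elim_inr, if_true, reduceCtorEq, if_false, sum_const_zero,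
      add_zero, hx', Fintype.sum_bool] at h
    have h2 : ∀ n, x.1 (Sum.inl (some (n, true))) ^ 2 + x.1 (Sum.inl (some (n, false))) ^ 2 ≤
        ‖v x‖ ^ 2 := by
      intro n
      have h3 : ‖v x n‖ ^ 2 ≤ ‖v x‖ ^ 2 := pow_le_pow_left₀ (norm_nonneg _) (norm_le_pi_norm _ n) 2
      rw [Complex.sq_norm, Complex.normSq_apply] at h3
      simp only [v] at h3 ⊢
      nlinarith
    have h4 : (1 : ℝ) ≤ Fintype.card N * ‖v x‖ ^ 2 := by
      have := sum_le_sum fun n (_ : n ∈ univ) => h2 n
      simp only [sum_const, card_univ, nsmul_eq_mul] at this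
      nlinarith
    have hc0 : (0 : ℝ) ≤ Fintype.card N := Nat.cast_nonneg _
    have hv0 := norm_nonneg (v x)
    have h5 : 1 ≤ ((Fintype.card N : ℝ) + 1) * ‖v x‖ := by
      by_contra hlt
      have h6 : ‖v x‖ ≤ 1 := by nlinarith
      nlinarith [mul_nonneg hc0 (mul_nonneg hv0 (sub_nonneg.2 h6))]
    rw [norm_smul, Real.norm_of_nonneg (by positivity)]
    simp only [M]
    nlinarith
  let ng : (N → ℂ) × (S → ℂ) → (N → ℂ) × (S → ℂ) := fun w => (-w.1, w.2)
  let Ψ : Sph τ' → (N → ℂ) × (S → ℂ) := fun x =>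
    if 0 ≤ r x then Φ (M • v x, y x) else ng (Φ (-(M • v x), y x))
  have hΨ0 : ∀ x, 0 = r x → Φ (M • v x, y x) = ng (Φ (-(M • v x), y x)) := by
    intro x hx
    rw [hout _ _ (heq x hx.symm), hout _ _ (by rw [norm_neg]; exact heq x hx.symm)]
    simp [ng]
  have hΨc : Continuous Ψ :=
    Continuous.if_le (by fun_prop) (by fun_prop) continuous_const hrc hΨ0
  have hΨne : ∀ x, Ψ x ≠ 0 := by
    intro x
    simp only [Ψ]
    split_ifs
    · exact hne _
    · intro h
      refine hne (-(M • v x), y x) (Prod.ext ?_ ?_)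
      · simpa [ng] using congrArg Prod.fst h
      · simpa [ng] using congrArg Prod.snd h
  have hΨn : ∀ x x' : Sph τ', x'.1 = flp τ' none x.1 → Ψ x' = ng (Ψ x) := by
    intro x x' h
    have e1 : r x' = -r x := by simp [r, h, flp, τ']
    have e2 : M • v x' = -(M • v x) := by
      rw [← smul_neg]
      congr 1
      ext n
      apply Complex.ext <;> simp [v, h, flp, τ']
    have e3 : y x' = y x := Subtype.ext (by ext i; simp [y, h, flp, τ'])
    simp only [Ψ, e1, e2, e3, neg_neg]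
    rcases lt_trichotomy (r x) 0 with h0 | h0 | h0
    · rw [if_pos (by linarith), if_neg (by linarith)]
      simp [ng]
    · rw [if_pos (by linarith), if_pos (by linarith), hΨ0 x h0.symm]
      simp [ng]
    · rw [if_neg (by linarith), if_pos (by linarith)]
  have hΨs : ∀ k, ∀ x x' : Sph τ', x'.1 = flp τ' (some k) x.1 → Ψ x' = act σ k (Ψ x) := by
    intro k x x' h
    have e1 : r x' = r x := by simp [r, h, flp, τ']
    have e2 : v x' = v x := by
      ext n
      apply Complex.ext <;> simp [v, h, flp, τ']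
    have e3 : (y x').1 = flp τ k (y x).1 := by ext i; simp [y, h, flp, τ']
    simp only [Ψ, e1, e2]
    split_ifs
    · exact hfl k _ _ _ e3
    · rw [hfl k _ _ _ e3]
      rfl
  let g : Sph τ' → (N × Bool) ⊕ (S × Bool) → ℝ := fun x =>
    Sum.elim (fun n => ri ((Ψ x).1 n.1) n.2) fun s => ri ((Ψ x).2 s.1) s.2
  obtain ⟨x, hx⟩ := pbu_sub τ' σ' hcard' g
    (continuous_pi fun s => by
      cases s with
      | inl n => exact (continuous_ri n.2).comp (by fun_prop)
      | inr s => exact (continuous_ri s.2).comp (by fun_prop))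
    (fun k x x' h => by
      cases k with
      | none =>
        ext s
        cases s with
        | inl n => simp [g, hΨn x x' h, flp, σ', ng, ri_neg]
        | inr s => simp [g, hΨn x x' h, flp, σ', ng]
      | some k =>
        ext s
        cases s with
        | inl n => simp [g, hΨs k x x' h, flp, σ', act]
        | inr s =>
          simp only [g, hΨs k x x' h, flp, σ', act, Sum.elim_inr, Option.some.injEq]
          split_ifs
          · exact ri_neg _ _
          · rfl)
  refine hΨne x (Prod.ext ?_ ?_)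
  · ext n
    exact eq_zero_of_ri fun b => congrFun hx (Sum.inl (n, b))
  · ext s
    exact eq_zero_of_ri fun b => congrFun hx (Sum.inr (s, b))

/-- Radial retraction onto the closed unit disc. -/
noncomputable def ret (w : ℂ) : closedBall (0 : ℂ) 1 :=
  ⟨((max 1 ‖w‖)⁻¹ : ℝ) * w, by
    have h : (0 : ℝ) < max 1 ‖w‖ := lt_of_lt_of_le one_pos (le_max_left _ _)
    rw [mem_closedBall_zero_iff, norm_mul, Complex.norm_real, Real.norm_of_nonneg (by positivity),
      inv_mul_le_iff₀ h, mul_one]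
    exact le_max_right _ _⟩

lemma continuous_ret : Continuous ret := by
  refine Continuous.subtype_mk (Continuous.mul (Complex.continuous_ofReal.comp ?_) continuous_id) _
  exact (continuous_const.max continuous_norm).inv₀ fun w =>
    (lt_of_lt_of_le one_pos (le_max_left _ _)).ne'

lemma norm_ret {w : ℂ} (h : 1 ≤ ‖w‖) : ‖(ret w : ℂ)‖ = 1 := by
  have h0 : 0 < ‖w‖ := by linarith
  show ‖(((max 1 ‖w‖)⁻¹ : ℝ) : ℂ) * w‖ = 1
  rw [max_eq_right h, norm_mul, Complex.norm_real, Real.norm_of_nonneg (by positivity),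
    inv_mul_cancel₀ h0.ne']

lemma ret_mul (w : ℂ) {n : ℝ} (hn : 0 ≤ n) : ∃ m : ℝ, 0 ≤ m ∧ n * (ret w : ℂ) = m * w :=
  ⟨n * (max 1 ‖w‖)⁻¹, by positivity, by
    show (n : ℂ) * ((((max 1 ‖w‖)⁻¹ : ℝ) : ℂ) * w) = _
    rw [Complex.ofReal_mul, mul_assoc]⟩

lemma top_poly {j : ℕ} (τ : I → K) (σ : S → K)
    (hcard : ∀ k, 2 * #{s | σ s = k} < #{i | τ i = k})
    (H : (Fin j → closedBall (0 : ℂ) 1) × closedBall (0 : ℂ) 1 × Sph τ →
      (Fin (j + 1) → ℂ) × (S → ℂ))
    (hc : Continuous H) (hne : ∀ p, H p ≠ 0)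
    (hfl : ∀ k α ζ (y y' : Sph τ), y'.1 = flp τ k y.1 → H (α, ζ, y') = act σ k (H (α, ζ, y)))
    (h0 : ∀ α, ∃ ν : Fin (j + 1) → ℝ, (∀ c, 0 ≤ ν c) ∧ ∀ ζ y, ‖ζ.1‖ = 1 →
      (H (α, ζ, y)).1 0 = ν 0 * ζ.1 ∧ (∀ c : Fin j, (H (α, ζ, y)).1 c.succ = ν c.succ * (α c).1) ∧
        (H (α, ζ, y)).2 = 0)
    (hb : ∀ α ζ y c, ‖(α c).1‖ = 1 → (H (α, ζ, y)).1 0 = 0) : False := by
  classical
  let one : closedBall (0 : ℂ) 1 := ⟨1, by simp⟩
  have hone : ‖one.1‖ = 1 := norm_one
  let al : (Fin (j + 1) → ℂ) → Fin j → closedBall (0 : ℂ) 1 := fun z c => ret (z c.succ)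
  let f : (Fin (j + 1) → ℂ) → ℝ := fun z => min 1 (max (‖fun c : Fin j => z c.succ‖ - 1) 0)
  let e0 : (Fin (j + 1) → ℂ) × (S → ℂ) := (Pi.single 0 1, 0)
  let F : (Fin (j + 1) → ℂ) × Sph τ → (Fin (j + 1) → ℂ) × (S → ℂ) := fun p =>
    (1 - f p.1) • H (al p.1, ret (p.1 0), p.2) + f p.1 • H (al p.1, one, p.2) +
      (f p.1 * (1 - f p.1) * (1 - ‖(ret (p.1 0)).1‖)) • e0
  let lam : (Fin (j + 1) → ℂ) → ℝ := fun z => min 1 (max (‖z‖ - 2) 0)
  have halc : Continuous al := continuous_pi fun c => continuous_ret.comp (continuous_apply _)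
  have hfc : Continuous f := by
    refine continuous_const.min (Continuous.max ?_ continuous_const)
    fun_prop
  have hr0 : Continuous fun p : (Fin (j + 1) → ℂ) × Sph τ => ret (p.1 0) :=
    continuous_ret.comp (by fun_prop)
  have hFc : Continuous F := by
    have a1 : Continuous fun p : (Fin (j + 1) → ℂ) × Sph τ => f p.1 := hfc.comp continuous_fst
    have a2 : Continuous fun p : (Fin (j + 1) → ℂ) × Sph τ => al p.1 := halc.comp continuous_fst
    exact (((continuous_const.sub a1).smul (hc.comp (a2.prodMk (hr0.prodMk continuous_snd)))).add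
      (a1.smul (hc.comp (a2.prodMk (continuous_const.prodMk continuous_snd))))).add
      (((a1.mul (continuous_const.sub a1)).mul
        (continuous_const.sub (continuous_subtype_val.comp hr0).norm)).smul continuous_const)
  have hlc : Continuous lam := by
    refine continuous_const.min (Continuous.max ?_ continuous_const)
    fun_prop
  have hf0 : ∀ z, 0 ≤ f z := fun z => le_min zero_le_one (le_max_right _ _)
  have hf1 : ∀ z, f z ≤ 1 := fun z => min_le_left _ _
  have hbr : ∀ z, 0 < f z → ∃ c, ‖(al z c).1‖ = 1 := by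
    intro z hz
    have h1 : 1 < ‖fun c : Fin j => z c.succ‖ := by
      have := (lt_min_iff.1 hz).2
      rcases lt_max_iff.1 this with h | h
      · linarith
      · exact absurd h (lt_irrefl _)
    by_contra hcon
    refine absurd h1 (not_lt.2 ((pi_norm_le_iff_of_nonneg zero_le_one).2 fun c => ?_))
    by_contra h2
    exact hcon ⟨c, norm_ret (not_le.1 h2).le⟩
  have hsame : ∀ z y (ζ : closedBall (0 : ℂ) 1), 0 < f z → ‖ζ.1‖ = 1 →
      H (al z, ζ, y) = H (al z, one, y) := by
    intro z y ζ hz hζ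
    obtain ⟨c, hc⟩ := hbr z hz
    obtain ⟨ν, -, hν⟩ := h0 (al z)
    refine Prod.ext (funext fun d => ?_) ((hν ζ y hζ).2.2.trans (hν one y hone).2.2.symm)
    refine Fin.cases ?_ (fun d => ?_) d
    · rw [hb _ _ _ c hc, hb _ _ _ c hc]
    · rw [(hν ζ y hζ).2.1, (hν one y hone).2.1]
  have hFeq : ∀ z y, ‖(ret (z 0)).1‖ = 1 → F (z, y) = H (al z, ret (z 0), y) := by
    intro z y h
    simp only [F, h, sub_self, mul_zero, zero_smul, add_zero]
    rcases (hf0 z).eq_or_lt with h1 | h1
    · simp [← h1]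
    · rw [← hsame z y _ h1 h, ← add_smul]
      simp
  have hF1 : ∀ z y, f z = 1 → F (z, y) = H (al z, one, y) := by
    intro z y h
    simp [F, h]
  have hFne : ∀ p, F p ≠ 0 := by
    rintro ⟨z, y⟩
    have hζ : ‖(ret (z 0)).1‖ ≤ 1 := mem_closedBall_zero_iff.1 (ret (z 0)).2
    rcases hζ.eq_or_lt with h | h
    · rw [hFeq z y h]
      exact hne _
    rcases (hf1 z).eq_or_lt with h1 | h1
    · rw [hF1 z y h1]
      exact hne _
    rcases (hf0 z).eq_or_lt with h2 | h2
    · simp only [F, ← h2]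
      simpa using hne _
    obtain ⟨c, hc⟩ := hbr z h2
    intro hz
    have h3 := congrFun (congrArg Prod.fst hz) 0
    simp only [F, Prod.fst_add, Prod.smul_fst, Pi.add_apply, Pi.smul_apply, hb _ _ _ c hc,
      smul_zero, zero_add, e0, Pi.single_eq_same, Prod.fst_zero, Pi.zero_apply, smul_eq_zero,
      one_ne_zero, or_false] at h3
    exact absurd h3 (mul_pos (mul_pos h2 (by linarith)) (by linarith)).ne'
  have hpos : ∀ z y, 2 ≤ ‖z‖ → (F (z, y)).2 = 0 ∧
      ∀ c, ∃ m : ℝ, 0 ≤ m ∧ (F (z, y)).1 c = m * z c := by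
    intro z y hz
    obtain ⟨ν, hν0, hν⟩ := h0 (al z)
    by_cases h : 1 ≤ ‖z 0‖
    · rw [hFeq z y (norm_ret h)]
      obtain ⟨a1, a2, a3⟩ := hν _ y (norm_ret h)
      refine ⟨a3, fun c => Fin.cases ?_ (fun d => ?_) c⟩
      · rw [a1]
        exact ret_mul _ (hν0 _)
      · rw [a2]
        exact ret_mul _ (hν0 _)
    · have h2 : 2 ≤ ‖fun c : Fin j => z c.succ‖ := by
        by_contra h3
        refine absurd hz (not_le.2 ((pi_norm_lt_iff two_pos).2 fun c => ?_))
        refine Fin.cases (by linarith) (fun d => ?_) c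
        exact (norm_le_pi_norm (fun c : Fin j => z c.succ) d).trans_lt (not_le.1 h3)
      have h4 : f z = 1 := min_eq_left (le_max_of_le_left (by linarith))
      rw [hF1 z y h4]
      obtain ⟨a1, a2, a3⟩ := hν _ y hone
      obtain ⟨c', hc'⟩ := hbr z (by rw [h4]; exact one_pos)
      refine ⟨a3, fun c => Fin.cases ⟨0, le_rfl, ?_⟩ (fun d => ?_) c⟩
      · rw [hb _ _ _ c' hc']
        simp
      · rw [a2]
        exact ret_mul _ (hν0 _)
  refine top_disc τ σ hcard (fun p => (1 - lam p.1) • F p + lam p.1 • (p.1, 0))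
    (by fun_prop) ?_ ?_ 3 (by norm_num) ?_
  · rintro ⟨z, y⟩ hz
    have hl0 : 0 ≤ lam z := le_min zero_le_one (le_max_right _ _)
    have hl1 : lam z ≤ 1 := min_le_left _ _
    rcases hl0.eq_or_lt with h | h
    · simp only [← h] at hz
      exact hFne (z, y) (by simpa using hz)
    have h2 : 2 < ‖z‖ := by
      rcases lt_max_iff.1 (lt_min_iff.1 h).2 with h | h
      · linarith
      · exact absurd h (lt_irrefl _)
    have hz0 : z = 0 := by
      ext c
      obtain ⟨m, hm, hmc⟩ := (hpos z y h2.le).2 c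
      have h3 := congrFun (congrArg Prod.fst hz) c
      simp only [Prod.fst_add, Prod.smul_fst, Pi.add_apply, Pi.smul_apply, hmc, Prod.fst_zero,
        Pi.zero_apply, Complex.real_smul] at h3
      have h4 : (((1 - lam z) * m + lam z : ℝ) : ℂ) * z c = 0 := by
        rw [← h3]
        push_cast
        ring
      have h5 : 0 < (1 - lam z) * m + lam z := by nlinarith [mul_nonneg (sub_nonneg.2 hl1) hm]
      exact (mul_eq_zero.1 h4).resolve_left (Complex.ofReal_ne_zero.2 h5.ne')
    rw [hz0, norm_zero] at h2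
    linarith
  · intro k z y y' h
    simp only [F, hfl k _ _ y y' h, act, e0]
    refine Prod.ext rfl (funext fun s => ?_)
    simp only [Prod.snd_add, Prod.smul_snd, Pi.add_apply, Pi.smul_apply, Pi.zero_apply, smul_zero,
      add_zero]
    split_ifs
    · simp only [smul_neg, smul_add, neg_add]
    · rfl
  · intro z y hz
    have : lam z = 1 := min_eq_left (le_max_of_le_left (by linarith))
    simp [this]

/-- The topological half of the persistence argument. -/
theorem top7 {j : ℕ} (τ : I → K) (σ : S → K)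
    (hcard : ∀ k, 2 * #{s | σ s = k} < #{i | τ i = k})
    (G : (Fin j → closedBall (0 : ℂ) 1) × Circle × unitInterval × Sph τ →
      (Fin (j + 1) → ℂ) × (S → ℂ))
    (hc : Continuous G) (hne : ∀ p, G p ≠ 0)
    (hfl : ∀ k α a t (y y' : Sph τ), y'.1 = flp τ k y.1 →
      (G (α, a, t, y')).1 = (G (α, a, t, y)).1 ∧ ∀ s, (G (α, a, t, y')).2 s =
        if σ s = k then -(G (α, a, t, y)).2 s else (G (α, a, t, y)).2 s)
    (h0 : ∀ α, ∃ ν : Fin (j + 1) → ℝ, (∀ c, 0 ≤ ν c) ∧ ∀ a y,
      (G (α, a, 0, y)).1 0 = ν 0 * (a : ℂ) ∧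
        (∀ c : Fin j, (G (α, a, 0, y)).1 c.succ = ν c.succ * (α c).1) ∧ (G (α, a, 0, y)).2 = 0)
    (h1 : ∀ α a y, G (α, a, 1, y) = G (α, 1, 1, y))
    (hb : ∀ α a t y c, ‖(α c).1‖ = 1 → (G (α, a, t, y)).1 0 = 0) : False := by
  classical
  have hmem : ∀ (a : Circle) (t : unitInterval),
      ((1 - t.1 : ℝ) : ℂ) * (a : ℂ) ∈ closedBall (0 : ℂ) 1 := by
    intro a t
    rw [mem_closedBall_zero_iff, norm_mul, Circle.norm_coe, mul_one, Complex.norm_real,
      Real.norm_of_nonneg (sub_nonneg.2 t.2.2)]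
    linarith [t.2.1]
  let q : Circle × unitInterval → closedBall (0 : ℂ) 1 := fun p => ⟨_, hmem p.1 p.2⟩
  have hqn : ∀ p, ‖(q p).1‖ = 1 - p.2.1 := by
    intro p
    show ‖((1 - p.2.1 : ℝ) : ℂ) * (p.1 : ℂ)‖ = _
    rw [norm_mul, Circle.norm_coe, mul_one, Complex.norm_real,
      Real.norm_of_nonneg (sub_nonneg.2 p.2.2.2)]
  have hqc : Continuous q := Continuous.subtype_mk (by fun_prop) _
  have hqs : Function.Surjective q := by
    intro ζ
    have hζ : ‖ζ.1‖ ≤ 1 := mem_closedBall_zero_iff.1 ζ.2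
    refine ⟨(Circle.exp (Complex.arg ζ.1), ⟨1 - ‖ζ.1‖, by linarith, by linarith [norm_nonneg ζ.1]⟩),
      Subtype.ext ?_⟩
    show ((1 - (1 - ‖ζ.1‖) : ℝ) : ℂ) * (Circle.exp (Complex.arg ζ.1) : ℂ) = ζ.1
    rw [sub_sub_cancel, Circle.coe_exp]
    exact Complex.norm_mul_exp_arg_mul_I _
  have hfib : ∀ p p', q p = q p' → ∀ α y, G (α, p.1, p.2, y) = G (α, p'.1, p'.2, y) := by
    rintro ⟨a, t⟩ ⟨a', t'⟩ h α y
    have e1 : t = t' := by
      have := hqn (a, t)
      rw [h, hqn] at this
      exact Subtype.ext (by simp only at this; linarith)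
    subst e1
    by_cases ht : t = 1
    · subst ht
      exact (h1 α a y).trans (h1 α a' y).symm
    · have h2 : ((1 - t.1 : ℝ) : ℂ) ≠ 0 := Complex.ofReal_ne_zero.2 fun h3 =>
        ht (Subtype.ext (by simp only [Set.Icc.coe_one]; linarith))
      have e2 : a = a' := Circle.ext (mul_left_cancel₀ h2 (congrArg Subtype.val h))
      rw [e2]
  let sec := Function.surjInv hqs
  have hsec : ∀ ζ, q (sec ζ) = ζ := Function.surjInv_eq hqs
  let H : (Fin j → closedBall (0 : ℂ) 1) × closedBall (0 : ℂ) 1 × Sph τ →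
      (Fin (j + 1) → ℂ) × (S → ℂ) := fun p => G (p.1, (sec p.2.1).1, (sec p.2.1).2, p.2.2)
  have hcl : IsClosed (Sph τ) := by
    have : Sph τ = ⋂ k, {x | ∑ i with τ i = k, x i ^ 2 = 1} := by
      ext x
      simp [Sph]
    rw [this]
    exact isClosed_iInter fun k => isClosed_eq (by fun_prop) continuous_const
  have hcp : IsCompact (Sph τ) := by
    refine (isCompact_closedBall (0 : I → ℝ) 1).of_isClosed_subset hcl fun x hx => ?_
    rw [mem_closedBall_zero_iff, pi_norm_le_iff_of_nonneg zero_le_one]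
    intro i
    have : x i ^ 2 ≤ 1 := by
      rw [← hx (τ i)]
      exact single_le_sum (f := fun i => x i ^ 2) (fun _ _ => sq_nonneg _) (by simp)
    exact (sq_le_one_iff_abs_le_one _).1 this
  have : CompactSpace (Sph τ) := isCompact_iff_compactSpace.1 hcp
  let Q : (Fin j → closedBall (0 : ℂ) 1) × Circle × unitInterval × Sph τ →
      (Fin j → closedBall (0 : ℂ) 1) × closedBall (0 : ℂ) 1 × Sph τ :=
    fun p => (p.1, q (p.2.1, p.2.2.1), p.2.2.2)
  have hQc : Continuous Q := by fun_prop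
  have hQs : Function.Surjective Q := fun p =>
    ⟨(p.1, (sec p.2.1).1, (sec p.2.1).2, p.2.2), by simp [Q, hsec]⟩
  have hHQ : H ∘ Q = G := funext fun p => hfib _ (p.2.1, p.2.2.1) (hsec _) _ _
  have hHc : Continuous H := by
    rw [(hQc.isClosedMap.isQuotientMap hQc hQs).continuous_iff, hHQ]
    exact hc
  refine top_poly τ σ hcard H hHc (fun p => hne _) (fun k α ζ y y' h => ?_) (fun α => ?_)
    fun α ζ y c h => hb _ _ _ _ c h
  · obtain ⟨a1, a2⟩ := hfl k α (sec ζ).1 (sec ζ).2 y y' h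
    exact Prod.ext a1 (funext a2)
  · obtain ⟨ν, hν0, hν⟩ := h0 α
    refine ⟨ν, hν0, fun ζ y hζ => ?_⟩
    have e1 : (sec ζ).2 = 0 := by
      have := hqn (sec ζ)
      rw [hsec, hζ] at this
      exact Subtype.ext (by simp only [Set.Icc.coe_zero]; linarith)
    have e2 : ((sec ζ).1 : ℂ) = ζ.1 := by
      have : ((1 - (sec ζ).2.1 : ℝ) : ℂ) * ((sec ζ).1 : ℂ) = ζ.1 := congrArg Subtype.val (hsec ζ)
      simpa [e1] using this
    simp only [H, e1, ← e2]
    exact hν _ y

end Pool.Agent.Lib.MP_f09365_an.N
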