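import Mathlib

namespace Pool.Agent.Lib.MP_f09365_an.N

open scoped ComplexConjugate

section abstract

variable {E : Type*} [Ring E]

/-- Commutes with the cut `P` and is the identity on the complement. -/
def Loc (P T : E) : Prop := T * P = P * T ∧ T * (1 - P) = 1 - P

lemma Loc.one (P : E) : Loc P 1 := ⟨by simp, by simp⟩

lemma Loc.mul {P S T : E} (hS : Loc P S) (hT : Loc P T) : Loc P (S * T) :=
  ⟨by rw [mul_assoc, hT.1, ← mul_assoc, hS.1, mul_assoc], by rw [mul_assoc, hT.2, hS.2]⟩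

lemma comm_inv {P : E} {T : Eˣ} (h : (T : E) * P = P * T) :
    ((T⁻¹ : Eˣ) : E) * P = P * (T⁻¹ : Eˣ) := by
  calc ((T⁻¹ : Eˣ) : E) * P = (T⁻¹ : Eˣ) * (P * T) * (T⁻¹ : Eˣ) := by simp [mul_assoc]
    _ = P * (T⁻¹ : Eˣ) := by rw [← h]; simp [← mul_assoc]

lemma Loc.inv {P : E} {T : Eˣ} (hT : Loc P (T : E)) : Loc P ((T⁻¹ : Eˣ) : E) :=
  ⟨comm_inv hT.1, by
    conv_lhs => rw [← hT.2]
    simp [← mul_assoc]⟩

lemma Loc.mono {P P' T : E} (hT : Loc P T) (h1 : P * P' = P) (h2 : P' * P = P) : Loc P' T := by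
  have e1 : T = P * T + (1 - P) := by rw [← hT.1, ← hT.2, ← mul_add]; simp
  have e2 : T = T * P + (1 - P) := by rw [hT.1]; exact e1
  constructor
  · calc T * P' = (T * P + (1 - P)) * P' := by rw [← e2]
      _ = T * P + (P' - P) := by rw [add_mul, mul_assoc, h1, sub_mul, one_mul, h1]
      _ = P' * (P * T + (1 - P)) := by
          rw [mul_add, ← mul_assoc, h2, mul_sub, mul_one, h2, hT.1]
      _ = P' * T := by rw [← e1]
  · have e3 : (1 - P) * (1 - P') = 1 - P' := by
      rw [sub_mul, one_mul, mul_sub, mul_one, h1, sub_self, sub_zero]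
    calc T * (1 - P') = T * ((1 - P) * (1 - P')) := by rw [e3]
      _ = 1 - P' := by rw [← mul_assoc, hT.2, e3]

lemma Loc.conj {P T : E} (hT : Loc P T) {x : Eˣ} (hx : (x : E) * P = P * x) :
    Loc P (((x⁻¹ : Eˣ) : E) * T * x) := by
  have hq : (x : E) * (1 - P) = (1 - P) * x := by rw [mul_sub, sub_mul, hx]; simp
  constructor
  · rw [mul_assoc, hx, ← mul_assoc, mul_assoc _ T, hT.1, ← mul_assoc, comm_inv hx]
    simp only [mul_assoc]
  · rw [mul_assoc, hq, ← mul_assoc, mul_assoc _ T, hT.2, mul_assoc, ← hq]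
    simp [← mul_assoc]

lemma Loc.cut {P x : E} (hP : P * P = P) (hx : x * P = P * x) : Loc P (x * P + (1 - P)) := by
  constructor
  · rw [add_mul, mul_add, mul_assoc, hP, sub_mul, mul_sub, ← mul_assoc, ← hx, mul_assoc, hP]
    simp
  · rw [add_mul, mul_assoc, mul_sub P, mul_one, hP, sub_self, mul_zero, zero_add, sub_mul, one_mul,
      mul_sub, mul_one, hP, sub_self, sub_zero]

end abstract

/-- Cut to the sites `≤ m`. -/
def Pm (m : ℤ) : Module.End ℂ (ℤ → ℂ) where
  toFun f n := if n ≤ m then f n else 0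
  map_add' f g := by funext n; by_cases h : n ≤ m <;> simp [h]
  map_smul' z f := by funext n; by_cases h : n ≤ m <;> simp [h]

lemma Pm_apply (m : ℤ) (f : ℤ → ℂ) (n : ℤ) : Pm m f n = if n ≤ m then f n else 0 := rfl

lemma Pm_mul (m m' : ℤ) : Pm m * Pm m' = Pm (min m m') := by
  ext1 f
  funext n
  simp only [Module.End.mul_apply, Pm_apply, le_min_iff]
  by_cases h : n ≤ m <;> by_cases h' : n ≤ m' <;> simp [h, h']

/-- The block rotation on the bonds of colour `e`. -/
def Um (α β : ℤ → ℂ) (e : ZMod 2) : Module.End ℂ (ℤ → ℂ) where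
  toFun f n := if (n : ZMod 2) = e then conj (α n) * f n + β n * f (n + 1)
    else α (n - 1) * f n - β (n - 1) * f (n - 1)
  map_add' f g := by funext n; by_cases h : (n : ZMod 2) = e <;> simp [h] <;> ring
  map_smul' z f := by funext n; by_cases h : (n : ZMod 2) = e <;> simp [h] <;> ring

lemma Um_apply (α β : ℤ → ℂ) (e : ZMod 2) (f : ℤ → ℂ) (n : ℤ) :
    Um α β e f n = if (n : ZMod 2) = e then conj (α n) * f n + β n * f (n + 1)
      else α (n - 1) * f n - β (n - 1) * f (n - 1) := rfl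

lemma col_succ (n : ℤ) (e : ZMod 2) : ((n + 1 : ℤ) : ZMod 2) = e ↔ ¬ (n : ZMod 2) = e := by
  push_cast
  generalize (n : ZMod 2) = k
  revert k e
  decide

lemma col_pred (n : ℤ) (e : ZMod 2) : ((n - 1 : ℤ) : ZMod 2) = e ↔ ¬ (n : ZMod 2) = e := by
  push_cast
  generalize (n : ZMod 2) = k
  revert k e
  decide

lemma Um_inv (α β : ℤ → ℂ) (h : ∀ c, conj (α c) * α c + β c * β c = 1) (e : ZMod 2) :
    Um (fun c => conj (α c)) (fun c => -β c) e * Um α β e = 1 := by
  ext1 f
  funext n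
  simp only [Module.End.mul_apply, Module.End.one_apply]
  rw [Um_apply]
  by_cases hn : (n : ZMod 2) = e
  · rw [if_pos hn, Um_apply, Um_apply, if_pos hn, if_neg (by rw [col_succ]; exact not_not.mpr hn)]
    simp only [Complex.conj_conj, add_sub_cancel_right]
    linear_combination f n * h n
  · rw [if_neg hn, Um_apply, Um_apply, if_neg hn, if_pos (by rw [col_pred]; exact hn)]
    simp only [sub_add_cancel]
    linear_combination f n * h (n - 1)

/-- The block rotation as a unit. -/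
def Uu (α β : ℤ → ℂ) (h : ∀ c, conj (α c) * α c + β c * β c = 1) (e : ZMod 2) :
    (Module.End ℂ (ℤ → ℂ))ˣ where
  val := Um α β e
  inv := Um (fun c => conj (α c)) (fun c => -β c) e
  val_inv := by
    have := Um_inv (fun c => conj (α c)) (fun c => -β c)
      (fun c => by simp only [Complex.conj_conj]; linear_combination h c) e
    simpa only [Complex.conj_conj, neg_neg] using this
  inv_val := Um_inv α β h e

lemma Um_comm (α β : ℤ → ℂ) (e : ZMod 2) (c : ℤ) (h : (c : ZMod 2) = e → β c = 0) :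
    Um α β e * Pm c = Pm c * Um α β e := by
  ext1 f
  funext n
  simp only [Module.End.mul_apply, Pm_apply, Um_apply]
  by_cases hn : (n : ZMod 2) = e
  · simp only [if_pos hn]
    rcases lt_trichotomy n c with h1 | h1 | h1
    · rw [if_pos h1.le, if_pos (by omega), if_pos h1.le]
    · subst h1
      simp [h hn]
    · rw [if_neg (by omega), if_neg (by omega), if_neg (by omega)]
      simp
  · simp only [if_neg hn]
    rcases lt_trichotomy (n - 1) c with h1 | h1 | h1
    · rw [if_pos (by omega), if_pos h1.le, if_pos (by omega)]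
    · have h2 : β (n - 1) = 0 := by
        rw [h1]
        apply h
        rw [← h1, col_pred]
        exact hn
      rw [if_neg (by omega), if_neg (show ¬ n ≤ c by omega), h2]
      simp
    · rw [if_neg (by omega), if_neg (by omega), if_neg (by omega)]
      simp

lemma Um_comm_succ (α β : ℤ → ℂ) (m : ℕ) :
    Um α β m * Pm ((m : ℤ) + 1) = Pm ((m : ℤ) + 1) * Um α β m := by
  apply Um_comm
  intro h
  rw [col_succ] at h
  exact absurd (Int.cast_natCast m) h

/-- The straightening operator. -/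
def Gam (α β : ℤ → ℂ) : ℕ → Module.End ℂ (ℤ → ℂ)
  | 0 => 1
  | m + 1 => Gam α β m * (Um α β m * Pm ((m : ℤ) + 1) + (1 - Pm ((m : ℤ) + 1)))

lemma Pm_idem (m : ℤ) : Pm m * Pm m = Pm m := by rw [Pm_mul, min_self]

lemma loc_succ {T : Module.End ℂ (ℤ → ℂ)} {m : ℤ} (h : Loc (Pm m) T) : Loc (Pm (m + 1)) T :=
  h.mono (by rw [Pm_mul, min_eq_left (by omega)]) (by rw [Pm_mul, min_eq_right (by omega)])

lemma Gam_loc (α β : ℤ → ℂ) : ∀ j : ℕ, Loc (Pm j) (Gam α β j)
  | 0 => Loc.one _
  | m + 1 => by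
    push_cast
    exact (loc_succ (Gam_loc α β m)).mul (Loc.cut (Pm_idem _) (Um_comm_succ α β m))

lemma loc_high {T : Module.End ℂ (ℤ → ℂ)} {m : ℤ} (h : Loc (Pm m) T) (f : ℤ → ℂ) {n : ℤ}
    (hn : m < n) : T f n = f n := by
  have e1 : T = Pm m * T + (1 - Pm m) := by rw [← h.1, ← h.2, ← mul_add]; simp
  rw [e1]
  simp [Pm_apply, not_le.mpr hn]

theorem Gam_high (α β : ℤ → ℂ) (j : ℕ) (f : ℤ → ℂ) {n : ℤ} (hn : (j : ℤ) < n) :
    Gam α β j f n = f n := loc_high (Gam_loc α β j) f hn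

lemma Gam_comm (α β : ℤ → ℂ) {c : ℤ} (hc : β c = 0) :
    ∀ j : ℕ, Gam α β j * Pm c = Pm c * Gam α β j
  | 0 => by simp [Gam]
  | m + 1 => by
    have h1 : Commute (Gam α β m) (Pm c) := Gam_comm α β hc m
    have h2 : Commute (Um α β m) (Pm c) := Um_comm α β _ c fun _ => hc
    have h3 : Commute (Pm ((m : ℤ) + 1)) (Pm c) := by
      show _ * _ = _ * _
      rw [Pm_mul, Pm_mul, min_comm]
    exact h1.mul_left ((h2.mul_left h3).add_left ((Commute.one_left _).sub_left h3))

theorem Gam_low (α β : ℤ → ℂ) {c : ℤ} (hc : β c = 0) (j : ℕ) (f : ℤ → ℂ)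
    (hf : ∀ n, n ≤ c → f n = 0) {n : ℤ} (hn : n ≤ c) : Gam α β j f n = 0 := by
  have h1 : Pm c f = 0 := by
    funext k
    rw [Pm_apply]
    split_ifs with h
    · exact hf k h
    · rfl
  have h2 := congrFun (LinearMap.congr_fun (Gam_comm α β hc j) f) n
  simp only [Module.End.mul_apply, h1, map_zero, Pi.zero_apply, Pm_apply, if_pos hn] at h2
  exact h2.symm

theorem Gam_inj (α β : ℤ → ℂ) (h : ∀ c, conj (α c) * α c + β c * β c = 1) :
    ∀ j : ℕ, Function.Injective (Gam α β j)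
  | 0 => fun _ _ e => e
  | m + 1 => by
    have h1 : ((((Uu α β h m)⁻¹ : (Module.End ℂ (ℤ → ℂ))ˣ) : Module.End ℂ (ℤ → ℂ)) *
        Pm ((m : ℤ) + 1) + (1 - Pm ((m : ℤ) + 1))) *
        (Um α β m * Pm ((m : ℤ) + 1) + (1 - Pm ((m : ℤ) + 1))) = 1 := by
      have e1 := Um_comm_succ α β m
      have e2 := Pm_idem ((m : ℤ) + 1)
      have e3 : (((Uu α β h m)⁻¹ : (Module.End ℂ (ℤ → ℂ))ˣ) : Module.End ℂ (ℤ → ℂ)) *
          Um α β m = 1 := (Uu α β h m).inv_mul
      generalize (((Uu α β h m)⁻¹ : (Module.End ℂ (ℤ → ℂ))ˣ) : Module.End ℂ (ℤ → ℂ)) = y at e3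
      generalize Um α β m = x at e1 e3
      generalize Pm ((m : ℤ) + 1) = P at e1 e2
      have e4 : P * (x * P) = x * P := by rw [← mul_assoc, ← e1, mul_assoc, e2]
      have e5 : P * (1 - P) = 0 := by rw [mul_sub, mul_one, e2, sub_self]
      rw [add_mul, mul_assoc, mul_add P, e4, e5, add_zero, ← mul_assoc, e3, one_mul, sub_mul,
        one_mul, mul_add, e4, e5]
      abel
    intro f g e
    have e' := Gam_inj α β h m e
    have h2 := LinearMap.congr_fun h1 f
    have h3 := LinearMap.congr_fun h1 g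
    rw [Module.End.mul_apply] at h2 h3
    rw [e', h3] at h2
    exact h2.symm

lemma Pm_cont {Z : Type*} [TopologicalSpace Z] (m : ℤ) (f : Z → ℤ → ℂ) (hf : Continuous f) :
    Continuous fun z => Pm m (f z) := by
  refine continuous_pi fun n => ?_
  simp only [Pm_apply]
  split_ifs
  · fun_prop
  · fun_prop

lemma Um_cont {Z : Type*} [TopologicalSpace Z] (α β : Z → ℤ → ℂ) (hα : Continuous α)
    (hβ : Continuous β) (e : ZMod 2) (f : Z → ℤ → ℂ) (hf : Continuous f) :
    Continuous fun z => Um (α z) (β z) e (f z) := by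
  refine continuous_pi fun n => ?_
  simp only [Um_apply]
  split_ifs
  · have : Continuous fun z => conj (α z n) := Complex.continuous_conj.comp (by fun_prop)
    fun_prop
  · fun_prop

theorem Gam_cont {Z : Type*} [TopologicalSpace Z] (α β : Z → ℤ → ℂ) (hα : Continuous α)
    (hβ : Continuous β) :
    ∀ (j : ℕ) (f : Z → ℤ → ℂ), Continuous f → Continuous fun z => Gam (α z) (β z) j (f z)
  | 0, _, hf => hf
  | m + 1, f, hf => by
    have hP := Pm_cont ((m : ℤ) + 1) f hf
    exact Gam_cont α β hα hβ m _ ((Um_cont α β hα hβ m _ hP).add (hf.sub hP))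

/-- A diagonal operator. -/
def Dm (a : ℤ → ℂ) : Module.End ℂ (ℤ → ℂ) where
  toFun f n := a n * f n
  map_add' f g := by funext n; simp [mul_add]
  map_smul' z f := by funext n; simp; ring

lemma Dm_apply (a f : ℤ → ℂ) (n : ℤ) : Dm a f n = a n * f n := rfl

/-- A diagonal operator as a unit. -/
noncomputable def Du (a : ℤ → ℂ) (ha : ∀ n, a n ≠ 0) : (Module.End ℂ (ℤ → ℂ))ˣ where
  val := Dm a
  inv := Dm fun n => (a n)⁻¹
  val_inv := by
    ext1 f
    funext n
    simp [Dm_apply, ha n]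
  inv_val := by
    ext1 f
    funext n
    simp [Dm_apply, ha n]

section word

variable (α β : ℤ → ℂ) (h : ∀ c, conj (α c) * α c + β c * β c = 1) (a : ℤ → ℂ)
  (ha : ∀ n, a n ≠ 0)

/-- The iterated commutator on functions on the integers. -/
noncomputable def gwd : ℕ → (Module.End ℂ (ℤ → ℂ))ˣ
  | 0 => Du a ha
  | m + 1 => (Uu α β h m)⁻¹ * gwd m * Uu α β h m * (gwd m)⁻¹

lemma wd_loc (ha1 : ∀ n, 0 < n → a n = 1) :
    ∀ m : ℕ, Loc (Pm m) ((gwd α β h a ha m : (Module.End ℂ (ℤ → ℂ))ˣ) : Module.End ℂ (ℤ → ℂ))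
  | 0 => by
    constructor
    · ext1 f
      funext n
      show a n * (if n ≤ (0 : ℕ) then f n else 0) = if n ≤ (0 : ℕ) then a n * f n else 0
      split_ifs <;> simp
    · ext1 f
      funext n
      show a n * (f n - if n ≤ (0 : ℕ) then f n else 0) = f n - if n ≤ (0 : ℕ) then f n else 0
      split_ifs with h1
      · simp
      · rw [ha1 n (by omega), one_mul]
  | m + 1 => by
    have h1 := loc_succ (wd_loc ha1 m)
    push_cast
    simp only [gwd, Units.val_mul]
    exact (h1.conj (x := Uu α β h m) (Um_comm_succ α β m)).mul h1.inv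

/-- Join coordinates. -/
noncomputable def Sv (a0 : ℂ) : ℕ → ℤ → ℂ
  | 0 => Pi.single 0 a0
  | m + 1 => α m • Pi.single ((m : ℤ) + 1) (1 : ℂ) + β m • Sv a0 m

lemma Um_single (m : ℕ) : Um α β m (Pi.single ((m : ℤ) + 1) 1) =
    α m • Pi.single ((m : ℤ) + 1) (1 : ℂ) + β m • Pi.single (m : ℤ) (1 : ℂ) := by
  funext n
  have hm : (((m : ℤ) : ℤ) : ZMod 2) = (m : ZMod 2) := Int.cast_natCast m
  simp only [Um_apply, Pi.add_apply, Pi.smul_apply, smul_eq_mul, Pi.single_apply]
  by_cases hn : (n : ZMod 2) = (m : ZMod 2)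
  · have h1 : n ≠ m + 1 := by
      rintro rfl
      rw [col_succ] at hn
      exact hn hm
    rw [if_pos hn, if_neg h1]
    by_cases h2 : n = m
    · subst h2
      simp
    · rw [if_neg h2, if_neg (by omega)]
      simp
  · have h1 : n ≠ m := by
      rintro rfl
      exact hn hm
    have h3 : n - 1 ≠ m + 1 := by
      intro h4
      apply hn
      have : n = m + 1 + 1 := by omega
      rw [this, col_succ, col_succ, not_not]
      exact hm
    rw [if_neg hn, if_neg h1, if_neg h3]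
    by_cases h2 : n = m + 1
    · subst h2
      simp
    · rw [if_neg h2]
      simp

lemma loc_single {T : Module.End ℂ (ℤ → ℂ)} {m : ℤ} (hT : Loc (Pm m) T) :
    T (Pi.single (m + 1) 1) = Pi.single (m + 1) 1 := by
  have e1 : (1 - Pm m : Module.End ℂ (ℤ → ℂ)) (Pi.single (m + 1) 1) = Pi.single (m + 1) 1 := by
    funext n
    simp only [LinearMap.sub_apply, Module.End.one_apply, Pi.sub_apply, Pm_apply, Pi.single_apply]
    split_ifs with h1 h2
    · omega
    all_goals simp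
  have := LinearMap.congr_fun hT.2 (Pi.single (m + 1) 1)
  rwa [Module.End.mul_apply, e1] at this

lemma Pm_single {m k : ℤ} (hk : k ≤ m) : Pm m (Pi.single k 1) = Pi.single k 1 := by
  funext n
  simp only [Pm_apply, Pi.single_apply]
  split_ifs with h1 h2 h3
  · rfl
  · rfl
  · omega
  · rfl

lemma gam_wd (ha1 : ∀ n, 0 < n → a n = 1) : ∀ j : ℕ,
    Gam α β j (((gwd α β h a ha j : (Module.End ℂ (ℤ → ℂ))ˣ) : Module.End ℂ (ℤ → ℂ))
      (Pi.single (j : ℤ) 1)) = Sv α β (a 0) j
  | 0 => by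
    funext n
    show a n * (Pi.single ((0 : ℕ) : ℤ) (1 : ℂ) : ℤ → ℂ) n = (Pi.single (0 : ℤ) (a 0) : ℤ → ℂ) n
    by_cases hn : n = 0
    · subst hn
      simp
    · simp [hn]
  | m + 1 => by
    have ih := gam_wd ha1 m
    have h1 := wd_loc α β h a ha ha1 m
    have h2 := loc_succ h1
    have hx : ((Uu α β h m : (Module.End ℂ (ℤ → ℂ))ˣ) : Module.End ℂ (ℤ → ℂ)) = Um α β m := rfl
    have hc := comm_inv (T := Uu α β h m) (Um_comm_succ α β m)
    have hxy : Um α β m * (((Uu α β h m)⁻¹ : (Module.End ℂ (ℤ → ℂ))ˣ) : Module.End ℂ (ℤ → ℂ))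
      = 1 := (Uu α β h m).mul_inv
    push_cast
    simp only [gwd, Gam, Sv, Units.val_mul, Module.End.mul_apply]
    rw [loc_single h1.inv, hx, Um_single, map_add, map_smul, map_smul, loc_single h1]
    generalize (((Uu α β h m)⁻¹ : (Module.End ℂ (ℤ → ℂ))ˣ) : Module.End ℂ (ℤ → ℂ)) = y at hc hxy
    generalize ((gwd α β h a ha m : (Module.End ℂ (ℤ → ℂ))ˣ) : Module.End ℂ (ℤ → ℂ)) = c
      at ih h1 h2
    have hv : Pm ((m : ℤ) + 1) (α m • Pi.single ((m : ℤ) + 1) (1 : ℂ) + β m • c (Pi.single (m : ℤ) 1))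
        = α m • Pi.single ((m : ℤ) + 1) (1 : ℂ) + β m • c (Pi.single (m : ℤ) 1) := by
      have e1 := LinearMap.congr_fun h2.1 (Pi.single (m : ℤ) 1)
      rw [Module.End.mul_apply, Module.End.mul_apply, Pm_single (by omega)] at e1
      rw [map_add, map_smul, map_smul, Pm_single le_rfl, ← e1]
    have key : ∀ v, Pm ((m : ℤ) + 1) v = v →
        (Um α β m * Pm ((m : ℤ) + 1) + (1 - Pm ((m : ℤ) + 1)) : Module.End ℂ (ℤ → ℂ)) (y v) = v := by
      intro v hv
      have e1 := LinearMap.congr_fun hc v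
      have e2 := LinearMap.congr_fun hxy v
      rw [Module.End.mul_apply, Module.End.mul_apply, hv] at e1
      rw [Module.End.mul_apply] at e2
      rw [LinearMap.add_apply, LinearMap.sub_apply, Module.End.mul_apply, ← e1, e2]
      simp
    rw [key _ hv, map_add, map_smul, map_smul, loc_single (Gam_loc α β m), ih]

lemma Sv_high (a0 : ℂ) : ∀ (j : ℕ) (n : ℤ), (j : ℤ) < n → Sv α β a0 j n = 0
  | 0, n, hn => by
    have : n ≠ 0 := by omega
    simp [Sv, this]
  | m + 1, n, hn => by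
    have : n ≠ m + 1 := by omega
    simp [Sv, this, Sv_high a0 m n (by omega)]

lemma Sv_apply (a0 : ℂ) : ∀ (j n : ℕ), n ≤ j →
    Sv α β a0 j n = (∏ i ∈ Finset.Ico n j, β i) * (if n = 0 then a0 else α ((n : ℤ) - 1))
  | 0, n, hn => by
    obtain rfl : n = 0 := by omega
    simp [Sv]
  | m + 1, n, hn => by
    rcases Nat.lt_or_ge m n with h1 | h1
    · obtain rfl : n = m + 1 := by omega
      simp [Sv, Sv_high α β a0 m (m + 1) (by omega)]
    · have : (n : ℤ) ≠ m + 1 := by omega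
      rw [Finset.prod_Ico_succ_top h1]
      simp only [Sv, Pi.add_apply, Pi.smul_apply, smul_eq_mul, Pi.single_apply, if_neg this,
        Sv_apply a0 m n h1]
      ring

end word

/-- The word evaluated on the last basis vector, straightened, has join coordinates. -/
theorem gam_word {G V : Type*} [Group G] (act : G → V → V)
    (act_mul : ∀ g g' v, act (g * g') v = act g (act g' v)) (act_one : ∀ v, act 1 v = v)
    (res : V → ℤ → ℂ) (α β : ℤ → ℂ) (h : ∀ c, conj (α c) * α c + β c * β c = 1) (a : ℤ → ℂ)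
    (ha : ∀ n, a n ≠ 0) (ha1 : ∀ n, 0 < n → a n = 1) (w : G) (u : ZMod 2 → G)
    (hw : ∀ v n, res (act w v) n = a n * res v n)
    (hu : ∀ e v, res (act (u e) v) = Um α β e (res v)) (c : ℕ → G) (h0 : c 0 = w)
    (hc : ∀ m : ℕ, c (m + 1) = (u m)⁻¹ * c m * u m * (c m)⁻¹) (j : ℕ) (v : V)
    (hv : res v = Pi.single (j : ℤ) 1) (n : ℕ) (hn : n ≤ j) :
    Gam α β j (res (act (c j) v)) n =
      (∏ i ∈ Finset.Ico n j, β i) * (if n = 0 then a 0 else α ((n : ℤ) - 1)) := by
  let R : G → (Module.End ℂ (ℤ → ℂ))ˣ → Prop := fun g T =>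
    ∀ v, res (act g v) = (T : Module.End ℂ (ℤ → ℂ)) (res v)
  have Rmul : ∀ {g g' T T'}, R g T → R g' T' → R (g * g') (T * T') := by
    intro g g' T T' h1 h2 v
    rw [act_mul, h1, h2, Units.val_mul, Module.End.mul_apply]
  have Rinv : ∀ {g T}, R g T → R g⁻¹ T⁻¹ := by
    intro g T h1 v
    have e1 := h1 (act g⁻¹ v)
    rw [← act_mul, mul_inv_cancel, act_one] at e1
    rw [e1, ← Module.End.mul_apply, Units.inv_mul, Module.End.one_apply]
  have Ru : ∀ e, R (u e) (Uu α β h e) := fun e v => hu e v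
  have Rc : ∀ m, R (c m) (gwd α β h a ha m) := by
    intro m
    induction m with
    | zero => rw [h0]; exact fun v => funext (hw v)
    | succ m ih => rw [hc]; exact Rmul (Rmul (Rmul (Rinv (Ru _)) ih) (Ru _)) (Rinv ih)
  rw [Rc j v, hv, gam_wd α β h a ha ha1 j, Sv_apply α β _ j n hn]

end Pool.Agent.Lib.MP_f09365_an.N
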