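import Pool.Agent.Lib.MP_30b5b4_an.CP

/-! Generic operator algebra lemmas: Cauchy-Schwarz, simplicity by averaging, traces as
ultralimits, completely positive factorisations through matrices. -/

open scoped CStarAlgebra ComplexOrder InnerProductSpace Topology
open Filter

set_option linter.unusedSectionVars false
set_option linter.style.haveILetI false

namespace Pool.Agent.Lib.MP_f09365_an.N

open Pool.Agent.Lib.MP_30b5b4_an

variable {A : Type*} [CStarAlgebra A]

theorem cs_norm {ι : Type*} (s : Finset ι) (x y : ι → A)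
    (hx : ∑ i ∈ s, star (x i) * x i = 1) (hy : ∑ i ∈ s, star (y i) * y i = 1) (b : A) :
    ‖∑ i ∈ s, star (x i) * b * y i‖ ≤ ‖b‖ := by
  letI := CStarAlgebra.spectralOrder A
  haveI := CStarAlgebra.spectralOrderedRing A
  set t := ∑ i ∈ s, star (x i) * b * y i with ht
  have hst : star t = ∑ i ∈ s, star (y i) * star b * x i := by
    rw [ht, star_sum]
    refine Finset.sum_congr rfl fun i _ => ?_
    simp only [star_mul, star_star, mul_assoc]
  have h1 : 0 ≤ ∑ i ∈ s, star (b * y i - x i * t) * (b * y i - x i * t) :=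
    Finset.sum_nonneg fun i _ => star_mul_self_nonneg _
  have h2 : ∑ i ∈ s, star (b * y i - x i * t) * (b * y i - x i * t)
      = ∑ i ∈ s, star (y i) * (star b * b) * y i - star t * t := by
    have e : ∀ i, star (b * y i - x i * t) * (b * y i - x i * t)
        = star (y i) * (star b * b) * y i - (star (y i) * star b * x i) * t
          - star t * (star (x i) * b * y i) + star t * (star (x i) * x i) * t := by
      intro i
      simp only [star_sub, star_mul]
      noncomm_ring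
    simp only [e, Finset.sum_add_distrib, Finset.sum_sub_distrib, ← Finset.sum_mul,
      ← Finset.mul_sum]
    rw [← hst, ← ht, hx]
    noncomm_ring
  have h3 : ∑ i ∈ s, star (y i) * (star b * b) * y i ≤ algebraMap ℝ A (‖b‖ ^ 2) := by
    calc ∑ i ∈ s, star (y i) * (star b * b) * y i
        ≤ ∑ i ∈ s, star (y i) * (algebraMap ℝ A (‖b‖ ^ 2)) * y i :=
          Finset.sum_le_sum fun i _ =>
            star_left_conjugate_le_conjugate CStarAlgebra.star_mul_le_algebraMap_norm_sq _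
      _ = algebraMap ℝ A (‖b‖ ^ 2) := by
          simp only [Algebra.algebraMap_eq_smul_one, mul_smul_comm, smul_mul_assoc, mul_one,
            ← Finset.smul_sum, hy]
  have h4 : star t * t ≤ algebraMap ℝ A (‖b‖ ^ 2) := by
    rw [h2, sub_nonneg] at h1
    exact h1.trans h3
  have h5 : ‖star t * t‖ ≤ ‖b‖ ^ 2 :=
    (CStarAlgebra.norm_le_iff_le_algebraMap _ (by positivity) (star_mul_self_nonneg t)).2 h4
  rw [CStarRing.norm_star_mul_self, ← sq] at h5
  exact (pow_le_pow_iff_left₀ (norm_nonneg _) (norm_nonneg _) two_ne_zero).1 h5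

theorem isUnit_of_near {a : A} {μ : ℂ} (h : ‖a - μ • (1 : A)‖ < ‖μ‖) : IsUnit a := by
  have hμ : μ ≠ 0 := by
    rintro rfl
    exact absurd h (by simp)
  have h1 : ‖(1 : A) - μ⁻¹ • a‖ < 1 := by
    have : (1 : A) - μ⁻¹ • a = -(μ⁻¹ • (a - μ • (1 : A))) := by
      rw [smul_sub, smul_smul, inv_mul_cancel₀ hμ, one_smul, neg_sub]
    rw [this, norm_neg, norm_smul, norm_inv, inv_mul_lt_iff₀ (norm_pos_iff.2 hμ), mul_one]
    exact h
  have h2 : IsUnit (μ⁻¹ • a) := by
    have := (Units.oneSub _ h1).isUnit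
    simpa using this
  have h3 : a = (μ • (1 : A)) * (μ⁻¹ • a) := by
    rw [smul_mul_assoc, one_mul, smul_smul, mul_inv_cancel₀ hμ, one_smul]
  rw [h3]
  refine IsUnit.mul ?_ h2
  rw [← Algebra.algebraMap_eq_smul_one]
  exact (IsUnit.mk0 μ hμ).map _

theorem simple_of_avg
    (h : ∀ a : A, a ≠ 0 → ∃ (ι : Type) (s : Finset ι) (x y : ι → A) (μ : ℂ),
      ‖∑ i ∈ s, x i * a * y i - μ • (1 : A)‖ < ‖μ‖) (J : TwoSidedIdeal A) : J = ⊥ ∨ J = ⊤ := by
  by_cases hJ : J = ⊥
  · exact Or.inl hJ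
  right
  obtain ⟨a, haJ, ha⟩ : ∃ a ∈ J, a ≠ 0 := by
    by_contra hc
    push Not at hc
    exact hJ (eq_bot_iff.2 fun a ha => (TwoSidedIdeal.mem_bot _).2 (hc a ha))
  obtain ⟨ι, s, x, y, μ, hlt⟩ := h a ha
  have hm : ∑ i ∈ s, x i * a * y i ∈ J :=
    sum_mem fun i _ => J.mul_mem_right _ _ (J.mul_mem_left _ _ haJ)
  obtain ⟨u, hu⟩ := isUnit_of_near hlt
  rw [← TwoSidedIdeal.one_mem_iff]
  have := J.mul_mem_left (↑u⁻¹) _ hm
  rwa [← hu, Units.inv_mul] at this

/-- Averaging version: `Θ b = ∑ x* b y` is a contraction, so an approximant is enough. -/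
theorem simple_of_approx
    (h : ∀ a : A, a ≠ 0 → ∃ (T : A) (ι : Type) (s : Finset ι) (x y : ι → A) (μ : ℂ),
      ∑ i ∈ s, star (x i) * x i = 1 ∧ ∑ i ∈ s, star (y i) * y i = 1 ∧
      ∑ i ∈ s, star (x i) * T * y i = μ • (1 : A) ∧ ‖a - T‖ < ‖μ‖) (J : TwoSidedIdeal A) :
    J = ⊥ ∨ J = ⊤ := by
  refine simple_of_avg (fun a ha => ?_) J
  obtain ⟨T, ι, s, x, y, μ, hx, hy, hT, hlt⟩ := h a ha
  refine ⟨ι, s, fun i => star (x i), y, μ, lt_of_le_of_lt ?_ hlt⟩
  rw [← hT, ← Finset.sum_sub_distrib]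
  have := cs_norm s x y hx hy (a - T)
  simpa only [mul_sub, sub_mul] using this

theorem trace_of_limit (τ : ℕ → A →ₗ[ℂ] ℂ) (h1 : ∀ l, τ l 1 = 1)
    (hpos : ∀ l a, 0 ≤ τ l (star a * a)) (hbd : ∀ l a, ‖τ l a‖ ≤ ‖a‖)
    (S : ℕ → Set A) (hS : Monotone S) (hd : Dense (⋃ k, S k))
    (htr : ∀ k l, k ≤ l → ∀ a ∈ S k, ∀ b ∈ S k, τ l (a * b) = τ l (b * a)) :
    ∃ t : A →ₗ[ℂ] ℂ, t 1 = 1 ∧ (∀ a, 0 ≤ t (star a * a)) ∧ (∀ a, ‖t a‖ ≤ ‖a‖) ∧
      ∀ a b, t (a * b) = t (b * a) := by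
  let U : Ultrafilter ℕ := Ultrafilter.of atTop
  have hU : (U : Filter ℕ) ≤ atTop := Ultrafilter.of_le _
  have hex : ∀ a : A, ∃ c : ℂ, Tendsto (fun l => τ l a) U (𝓝 c) := by
    intro a
    obtain ⟨c, -, hc⟩ := (isCompact_closedBall (0 : ℂ) ‖a‖).ultrafilter_le_nhds
      (U.map fun l => τ l a) (by
        rw [Ultrafilter.coe_map, le_principal_iff, mem_map]
        exact Eventually.of_forall fun l => by simpa using hbd l a)
    exact ⟨c, hc⟩
  choose f hf using hex
  let t : A →ₗ[ℂ] ℂ :=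
    { toFun := f
      map_add' := fun a b => tendsto_nhds_unique (hf (a + b))
        (by simpa only [map_add] using (hf a).add (hf b))
      map_smul' := fun c a => tendsto_nhds_unique (hf (c • a))
        (by simpa only [map_smul, RingHom.id_apply] using (hf a).const_smul c) }
  have hb : ∀ a, ‖t a‖ ≤ ‖a‖ := fun a =>
    le_of_tendsto (hf a).norm (Eventually.of_forall fun l => hbd l a)
  have hc : Continuous t := AddMonoidHomClass.continuous_of_bound t 1 (by simpa using hb)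
  refine ⟨t, ?_, fun a => ?_, hb, fun a b => ?_⟩
  · exact tendsto_nhds_unique (hf 1) (by simpa only [h1] using tendsto_const_nhds)
  · exact ge_of_tendsto (hf _) (Eventually.of_forall fun l => hpos l a)
  · have key : ∀ a ∈ ⋃ k, S k, ∀ b ∈ ⋃ k, S k, t (a * b) = t (b * a) := by
      intro a ha b hb
      obtain ⟨k, hk⟩ := Set.mem_iUnion.1 ha
      obtain ⟨m, hm⟩ := Set.mem_iUnion.1 hb
      refine tendsto_nhds_unique (hf (a * b)) ((hf (b * a)).congr' ?_)
      filter_upwards [hU (eventually_ge_atTop (max k m))] with l hl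
      exact (htr _ l hl a (hS (le_max_left k m) hk) b (hS (le_max_right k m) hm)).symm
    have k2 : ∀ a ∈ ⋃ k, S k, ∀ b, t (a * b) = t (b * a) := by
      intro a ha b
      refine hd.induction (P := fun b => t (a * b) = t (b * a)) (key a ha) ?_ b
      exact isClosed_eq (by fun_prop) (by fun_prop)
    refine hd.induction (P := fun a => t (a * b) = t (b * a)) (fun a ha => k2 a ha b) ?_ a
    exact isClosed_eq (by fun_prop) (by fun_prop)

lemma sq_nonneg' (x : ℝ) : (0 : ℂ) ≤ (x : ℂ) ^ 2 := by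
  exact_mod_cast sq_nonneg x

section cp
variable {H : Type*} [NormedAddCommGroup H] [InnerProductSpace ℂ H] [CompleteSpace H]

/-- Compression to a finite family of vectors. -/
noncomputable def compL {n : ℕ} (ρ : A →⋆ₐ[ℂ] (H →L[ℂ] H)) (e : Fin n → H) :
    A →ₗ[ℂ] CStarMatrix (Fin n) (Fin n) ℂ where
  toFun a := CStarMatrix.ofMatrix (Matrix.of fun p q => ⟪e p, ρ a (e q)⟫_ℂ)
  map_add' a b := by
    ext p q
    simp
  map_smul' c a := by
    ext p q
    simp

lemma compL_apply {n : ℕ} (ρ : A →⋆ₐ[ℂ] (H →L[ℂ] H)) (e : Fin n → H) (a : A) (p q : Fin n) :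
    compL ρ e a p q = ⟪e p, ρ a (e q)⟫_ℂ := rfl

lemma sum_entry {n : ℕ} {ι : Type*} (s : Finset ι) (M : ι → CStarMatrix (Fin n) (Fin n) ℂ)
    (p q : Fin n) : (∑ i ∈ s, M i) p q = ∑ i ∈ s, M i p q := by
  classical
  induction s using Finset.induction_on with
  | empty => simp
  | insert i s hi ih => rw [Finset.sum_insert hi, Finset.sum_insert hi, CStarMatrix.add_apply, ih]

lemma compL_cp {n : ℕ} (ρ : A →⋆ₐ[ℂ] (H →L[ℂ] H)) (e : Fin n → H) : IsCP (compL ρ e) := by
  intro m a b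
  let v : Fin n → H := fun q => ∑ j, ∑ s, b j s q • ρ (a j) (e s)
  have hX : ∀ p q, (∑ i, ∑ j, star (b i) * compL ρ e (star (a i) * a j) * b j) p q
      = ⟪v p, v q⟫_ℂ := by
    intro p q
    simp only [sum_entry, CStarMatrix.mul_apply, CStarMatrix.star_apply, compL_apply, v,
      sum_inner, inner_sum, inner_smul_left, inner_smul_right, map_mul, map_star,
      mul_apply_eq_comp, ContinuousLinearMap.star_eq_adjoint,
      ContinuousLinearMap.adjoint_inner_right, Finset.sum_mul, Finset.mul_sum]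
    rw [Finset.sum_comm]
    refine Finset.sum_congr rfl fun j _ => ?_
    rw [Finset.sum_comm]
    refine Finset.sum_congr rfl fun s _ => Finset.sum_congr rfl fun i _ =>
      Finset.sum_congr rfl fun r _ => ?_
    simp only [Complex.star_def]
    ring
  apply matrix_nonneg
  · ext p q
    rw [CStarMatrix.star_apply, hX, hX, Complex.star_def, inner_conj_symm]
  · intro c
    simp only [hX]
    have : ∑ i, ∑ j, star (c i) * ⟪v i, v j⟫_ℂ * c j = ⟪∑ i, c i • v i, ∑ j, c j • v j⟫_ℂ := by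
      simp only [sum_inner, inner_sum, inner_smul_left, inner_smul_right, Complex.star_def,
        Finset.mul_sum]
      rw [Finset.sum_comm]
      refine Finset.sum_congr rfl fun i _ => Finset.sum_congr rfl fun j _ => ?_
      ring
    rw [this]
    rw [inner_self_eq_norm_sq_to_K]
    exact sq_nonneg' _

/-- The map `M ↦ ∑ M p q • r p* r q`. -/
noncomputable def buildL {n : ℕ} (r : Fin n → A) : CStarMatrix (Fin n) (Fin n) ℂ →ₗ[ℂ] A where
  toFun M := ∑ p, ∑ q, M p q • (star (r p) * r q)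
  map_add' M N := by simp [add_smul, Finset.sum_add_distrib]
  map_smul' c M := by simp [Finset.smul_sum, mul_smul]

lemma buildL_apply {n : ℕ} (r : Fin n → A) (M : CStarMatrix (Fin n) (Fin n) ℂ) :
    buildL r M = ∑ p, ∑ q, M p q • (star (r p) * r q) := rfl

variable [PartialOrder A] [StarOrderedRing A]

lemma buildL_cp {n : ℕ} (r : Fin n → A) : IsCP (buildL r) := by
  intro m a b
  have : ∑ i, ∑ j, star (b i) * buildL r (star (a i) * a j) * b j
      = ∑ s, star (∑ j, ∑ q, a j s q • (r q * b j)) * (∑ j, ∑ q, a j s q • (r q * b j)) := by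
    simp only [buildL_apply, CStarMatrix.mul_apply, CStarMatrix.star_apply, star_sum, star_smul,
      star_mul, Finset.sum_mul, Finset.mul_sum, Finset.sum_smul, smul_mul_assoc, mul_smul_comm,
      Finset.smul_sum, smul_smul, mul_assoc]
    conv_rhs => rw [Finset.sum_comm]
    conv_lhs => rw [Finset.sum_comm]
    refine Finset.sum_congr rfl fun j _ => ?_
    conv_rhs => rw [Finset.sum_comm]
    conv_lhs => enter [2, i]; rw [Finset.sum_comm]
    conv_lhs => rw [Finset.sum_comm]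
    refine Finset.sum_congr rfl fun q _ => ?_
    conv_rhs => rw [Finset.sum_comm]
    refine Finset.sum_congr rfl fun i _ => ?_
    conv_rhs => rw [Finset.sum_comm]
    refine Finset.sum_congr rfl fun p _ => Finset.sum_congr rfl fun s _ => ?_
    rw [mul_comm]
  rw [this]
  exact Finset.sum_nonneg fun s _ => star_mul_self_nonneg _

/-- A unital completely positive factorisation through a matrix algebra. -/
theorem cp_factor {P : Type*} [Fintype P] (ρ : A →⋆ₐ[ℂ] (H →L[ℂ] H)) (e : P → H)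
    (he : Orthonormal ℂ e) (r : P → A) (hr : ∑ p, star (r p) * r p = 1) :
    ∃ (n : ℕ) (ψ : A →CP CStarMatrix (Fin n) (Fin n) ℂ)
      (φ : CStarMatrix (Fin n) (Fin n) ℂ →CP A),
      (∀ a, ‖ψ a‖ ≤ ‖a‖) ∧ (∀ M, ‖φ M‖ ≤ ‖M‖) ∧ ψ 1 = 1 ∧ φ 1 = 1 ∧
      ∀ a, φ (ψ a) = ∑ p, ∑ q, ⟪e p, ρ a (e q)⟫_ℂ • (star (r p) * r q) := by
  classical
  let E := (Fintype.equivFin P).symm
  have h1 : compL ρ (e ∘ E) 1 = 1 := by
    ext p q
    rw [compL_apply, map_one, one_apply_eq_self, CStarMatrix.one_apply]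
    exact orthonormal_iff_ite.1 (he.comp E E.injective) p q
  have h2 : buildL (r ∘ E) 1 = 1 := by
    rw [buildL_apply, ← hr, ← E.sum_comp]
    refine Finset.sum_congr rfl fun p _ => ?_
    simp [CStarMatrix.one_apply]
  obtain ⟨ψ, hψ⟩ := exists_cp_of_isCP (compL ρ (e ∘ E)) (NonUnitalStarAlgHom.id ℂ _)
    (fun _ _ h => h) (fun _ => rfl) (compL_cp ρ (e ∘ E))
  obtain ⟨φ, hφ⟩ := exists_cp_of_isCP (buildL (r ∘ E)) (NonUnitalStarAlgHom.id ℂ _)
    (fun _ _ h => h) (fun _ => rfl) (buildL_cp (r ∘ E))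
  refine ⟨_, ψ, φ, fun a => ?_, fun M => ?_, by rw [hψ, h1], by rw [hφ, h2], fun a => ?_⟩
  · rw [hψ]
    exact (compL_cp ρ (e ∘ E)).norm_le h1.le a
  · rw [hφ]
    exact (buildL_cp (r ∘ E)).norm_le h2.le M
  · rw [hφ, hψ, buildL_apply, ← E.sum_comp]
    refine Finset.sum_congr rfl fun p _ => ?_
    rw [← E.sum_comp]
    rfl

end cp

/-- It is enough to approximate the identity on a set with dense linear span. `Q` is any class of
contractive linear maps. -/
theorem approx_of_dense_span (Q : (A →ₗ[ℂ] A) → Prop) (hQ : ∀ T, Q T → ∀ a, ‖T a‖ ≤ ‖a‖)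
    (G : Set A) (hG : Dense (Submodule.span ℂ G : Set A))
    (h : ∀ S : Finset A, (S : Set A) ⊆ G → ∀ ε : ℝ, 0 < ε → ∃ T, Q T ∧ ∀ a ∈ S, ‖T a - a‖ ≤ ε)
    (S : Finset A) (ε : ℝ) (hε : 0 < ε) : ∃ T, Q T ∧ ∀ a ∈ S, ‖T a - a‖ < ε := by
  classical
  have key : ∀ a ∈ Submodule.span ℂ G, ∃ (F : Finset A) (C : ℝ), (F : Set A) ⊆ G ∧ 0 ≤ C ∧
      ∀ (T : A →ₗ[ℂ] A) (δ : ℝ), 0 ≤ δ → (∀ g ∈ F, ‖T g - g‖ ≤ δ) → ‖T a - a‖ ≤ C * δ := by
    intro a ha
    induction ha using Submodule.span_induction with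
    | mem g hg => exact ⟨{g}, 1, by simpa using hg, zero_le_one, fun T δ _ h => by simpa using h⟩
    | zero => exact ⟨∅, 0, by simp, le_rfl, fun T δ _ _ => by simp⟩
    | add a b _ _ ha hb =>
      obtain ⟨F, C, hF, hC, h⟩ := ha
      obtain ⟨F', C', hF', hC', h'⟩ := hb
      refine ⟨F ∪ F', C + C', by simpa using ⟨hF, hF'⟩, add_nonneg hC hC', fun T δ hδ hT => ?_⟩
      have e : T (a + b) - (a + b) = (T a - a) + (T b - b) := by rw [map_add]; abel
      rw [e, add_mul]
      exact (norm_add_le _ _).trans (add_le_add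
        (h T δ hδ fun g hg => hT g (Finset.mem_union_left _ hg))
        (h' T δ hδ fun g hg => hT g (Finset.mem_union_right _ hg)))
    | smul c a _ ha =>
      obtain ⟨F, C, hF, hC, h⟩ := ha
      refine ⟨F, ‖c‖ * C, hF, mul_nonneg (norm_nonneg _) hC, fun T δ hδ hT => ?_⟩
      rw [map_smul, ← smul_sub, norm_smul, mul_assoc]
      exact mul_le_mul_of_nonneg_left (h T δ hδ hT) (norm_nonneg _)
  have hap : ∀ a : A, ∃ (b : A) (F : Finset A) (C : ℝ), ‖a - b‖ < ε / 4 ∧ (F : Set A) ⊆ G ∧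
      0 ≤ C ∧ ∀ (T : A →ₗ[ℂ] A) (δ : ℝ), 0 ≤ δ → (∀ g ∈ F, ‖T g - g‖ ≤ δ) →
        ‖T b - b‖ ≤ C * δ := by
    intro a
    obtain ⟨b, hb, hab⟩ := hG.exists_dist_lt a (show 0 < ε / 4 by positivity)
    obtain ⟨F, C, h1, h2, h3⟩ := key b hb
    exact ⟨b, F, C, by rwa [dist_eq_norm] at hab, h1, h2, h3⟩
  choose b F C hb hF hC hT using hap
  have hK : 0 < ∑ a ∈ S, C a + 1 := by
    have := Finset.sum_nonneg (s := S) fun a _ => hC a
    linarith
  obtain ⟨T, hTQ, hTε⟩ := h (S.biUnion F) (by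
    intro g hg
    obtain ⟨a, _, ha⟩ := Finset.mem_biUnion.1 (Finset.mem_coe.1 hg)
    exact hF a ha) (ε / 4 / (∑ a ∈ S, C a + 1)) (by positivity)
  refine ⟨T, hTQ, fun a ha => ?_⟩
  have h1 := hT a T _ (by positivity) fun g hg => hTε g (Finset.mem_biUnion.2 ⟨a, ha, hg⟩)
  have h2 : C a * (ε / 4 / (∑ a ∈ S, C a + 1)) ≤ ε / 4 := by
    rw [← mul_div_assoc, div_le_iff₀ hK, mul_comm]
    have := Finset.single_le_sum (f := C) (fun a _ => hC a) ha
    exact mul_le_mul_of_nonneg_left (by linarith) (by positivity)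
  have e : T a - a = T (a - b a) + (T (b a) - b a) - (a - b a) := by rw [map_sub]; abel
  have h3 := hQ T hTQ (a - b a)
  have h4 := hb a
  rw [e]
  have := (norm_sub_le (T (a - b a) + (T (b a) - b a)) (a - b a)).trans
    (add_le_add_left (norm_add_le _ _) _)
  linarith

end Pool.Agent.Lib.MP_f09365_an.N
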