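import Mathlib

set_option autoImplicit false

/-! Weighted windows on a chain with bonds of strength `β c` (bond `c` joins the sites `c`, `c+1`). -/

namespace Pool.Agent.Lib.MP_f09365_an.N

open Finset

/-- length of a bond of strength `b`, between `1` and `L`. -/
noncomputable def ell (L : ℕ) (b : ℝ) : ℝ := 1 / max (min b 1) (1 / (L : ℝ))

/-- weighted distance of two sites. -/
noncomputable def wd (L : ℕ) (β : ℤ → ℝ) (a b : ℤ) : ℝ :=
  ∑ c ∈ Finset.Ico (min a b) (max a b), ell L (β c)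

noncomputable def weta (L : ℕ) (β : ℤ → ℝ) (n a : ℤ) : ℝ := max ((L : ℝ) - wd L β n a) 0

noncomputable def wN (L : ℕ) (β : ℤ → ℝ) (a : ℤ) : ℝ :=
  ∑ n ∈ Finset.Icc (a - L) (a + L), weta L β n a ^ 2

/-- the window with centre `n` at the site `a`. -/
noncomputable def xi (L : ℕ) (β : ℤ → ℝ) (n a : ℤ) : ℝ := weta L β n a / Real.sqrt (wN L β a)

variable {L : ℕ}

lemma ell_den_pos (hL : 1 ≤ L) (b : ℝ) : 0 < max (min b 1) (1 / (L : ℝ)) := by
  have : (0 : ℝ) < L := by exact_mod_cast hL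
  exact lt_max_of_lt_right (by positivity)

lemma one_le_ell (hL : 1 ≤ L) (b : ℝ) : 1 ≤ ell L b := by
  have h1 : (1 : ℝ) ≤ L := by exact_mod_cast hL
  unfold ell
  rw [le_div_iff₀ (ell_den_pos hL b), one_mul]
  refine max_le (min_le_right _ _) ?_
  rw [div_le_iff₀ (by linarith)]; linarith

lemma ell_zero (hL : 1 ≤ L) {b : ℝ} (hb : b ≤ 0) : ell L b = L := by
  have : (0 : ℝ) < L := by exact_mod_cast hL
  unfold ell
  rw [max_eq_right (le_trans (min_le_left _ _) (le_trans hb (by positivity)))]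
  simp

lemma ell_le {b δ : ℝ} (h0 : 0 < δ) (h1 : δ ≤ 1) (hb : δ ≤ b) : ell L b ≤ 1 / δ := by
  unfold ell
  exact one_div_le_one_div_of_le h0 (le_max_of_le_left (le_min hb h1))

lemma continuous_ell (hL : 1 ≤ L) : Continuous (ell L) := by
  unfold ell
  exact continuous_const.div (by fun_prop) fun b => (ell_den_pos hL b).ne'

lemma wd_nonneg (hL : 1 ≤ L) (β : ℤ → ℝ) (a b : ℤ) : 0 ≤ wd L β a b :=
  Finset.sum_nonneg fun _ _ => le_trans zero_le_one (one_le_ell hL _)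

lemma wd_self (β : ℤ → ℝ) (a : ℤ) : wd L β a a = 0 := by simp [wd]

lemma wd_comm (β : ℤ → ℝ) (a b : ℤ) : wd L β a b = wd L β b a := by
  simp [wd, min_comm, max_comm]

lemma wd_tri (hL : 1 ≤ L) (β : ℤ → ℝ) (a b c : ℤ) : wd L β a c ≤ wd L β a b + wd L β b c := by
  have h0 : ∀ x : ℤ, 0 ≤ ell L (β x) := fun _ => le_trans zero_le_one (one_le_ell hL _)
  unfold wd
  calc _ ≤ ∑ x ∈ Finset.Ico (min a b) (max a b) ∪ Finset.Ico (min b c) (max b c), ell L (β x) := by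
        refine Finset.sum_le_sum_of_subset_of_nonneg (fun x hx => ?_) fun x _ _ => h0 x
        simp only [Finset.mem_union, Finset.mem_Ico] at hx ⊢
        omega
    _ ≤ _ := by
        rw [← Finset.sum_union_inter]
        exact le_add_of_nonneg_right (Finset.sum_nonneg fun x _ => h0 x)

lemma abs_le_wd (hL : 1 ≤ L) (β : ℤ → ℝ) (a b : ℤ) : ((|a - b| : ℤ) : ℝ) ≤ wd L β a b := by
  have h : ((Finset.Ico (min a b) (max a b)).card : ℤ) = |a - b| := by
    rw [Int.card_Ico, Int.toNat_of_nonneg (by omega)]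
    rcases abs_cases (a - b) with h | h <;> omega
  have h2 : ((|a - b| : ℤ) : ℝ) = ∑ _c ∈ Finset.Ico (min a b) (max a b), (1 : ℝ) := by
    rw [← h, Finset.sum_const, nsmul_eq_mul, mul_one, Int.cast_natCast]
  rw [h2]
  exact Finset.sum_le_sum fun _ _ => one_le_ell hL _

lemma wd_le (β : ℤ → ℝ) {a b : ℤ} {δ : ℝ} (h0 : 0 < δ) (h1 : δ ≤ 1)
    (h : ∀ c, min a b ≤ c → c < max a b → δ ≤ β c) :
    wd L β a b ≤ ((|a - b| : ℤ) : ℝ) * (1 / δ) := by
  have hc : ((Finset.Ico (min a b) (max a b)).card : ℤ) = |a - b| := by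
    rw [Int.card_Ico, Int.toNat_of_nonneg (by omega)]
    rcases abs_cases (a - b) with h | h <;> omega
  have h2 : ((|a - b| : ℤ) : ℝ) * (1 / δ) = ∑ _c ∈ Finset.Ico (min a b) (max a b), (1 / δ : ℝ) := by
    rw [← hc, Finset.sum_const, nsmul_eq_mul, Int.cast_natCast]
  rw [h2]
  exact Finset.sum_le_sum fun c hc =>
    ell_le h0 h1 (h c (Finset.mem_Ico.1 hc).1 (Finset.mem_Ico.1 hc).2)

lemma le_wd_of_broken (hL : 1 ≤ L) (β : ℤ → ℝ) {a b c : ℤ} (h1 : min a b ≤ c) (h2 : c < max a b)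
    (h : β c ≤ 0) : (L : ℝ) ≤ wd L β a b := by
  rw [← ell_zero hL h]
  exact Finset.single_le_sum (f := fun c => ell L (β c))
    (fun _ _ => le_trans zero_le_one (one_le_ell hL _)) (Finset.mem_Ico.2 ⟨h1, h2⟩)

lemma wd_shift (β : ℤ → ℝ) (m a b : ℤ) :
    wd L (fun c => β (c + m)) a b = wd L β (a + m) (b + m) := by
  unfold wd
  refine Finset.sum_bij' (fun c _ => c + m) (fun c _ => c - m) ?_ ?_ ?_ ?_ ?_
  · intro c hc; simp only [Finset.mem_Ico] at hc ⊢; omega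
  · intro c hc; simp only [Finset.mem_Ico] at hc ⊢; omega
  · intro c _; simp
  · intro c _; simp
  · intro c _; rfl

lemma continuous_wd (hL : 1 ≤ L) (a b : ℤ) : Continuous fun β : ℤ → ℝ => wd L β a b :=
  continuous_finsetSum _ fun c _ => (continuous_ell hL).comp (continuous_apply c)

lemma weta_nonneg (β : ℤ → ℝ) (n a : ℤ) : 0 ≤ weta L β n a := le_max_right _ _

lemma weta_far (hL : 1 ≤ L) (β : ℤ → ℝ) {n a : ℤ} (h : (L : ℤ) ≤ |n - a|) : weta L β n a = 0 := by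
  have h1 := abs_le_wd hL β n a
  have h2 : ((L : ℤ) : ℝ) ≤ ((|n - a| : ℤ) : ℝ) := by exact_mod_cast h
  rw [Int.cast_natCast] at h2
  exact max_eq_right (by linarith)

lemma weta_out (hL : 1 ≤ L) (β : ℤ → ℝ) {n a : ℤ} (h : n ∉ Finset.Icc (a - L) (a + L)) :
    weta L β n a = 0 := by
  refine weta_far hL β ?_
  simp only [Finset.mem_Icc] at h
  rcases abs_cases (n - a) with h | h <;> omega

lemma weta_self (β : ℤ → ℝ) (a : ℤ) : weta L β a a = L := by
  simp [weta, wd_self]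

lemma weta_sub (hL : 1 ≤ L) (β : ℤ → ℝ) (n a b : ℤ) :
    weta L β n a - wd L β a b ≤ weta L β n b := by
  have h1 := wd_tri hL β n a b
  have h2 := wd_nonneg hL β a b
  unfold weta
  rcases le_total ((L : ℝ) - wd L β n a) 0 with h | h
  · rw [max_eq_right h]; exact le_max_of_le_right (by linarith)
  · rw [max_eq_left h]; exact le_max_of_le_left (by linarith)

lemma weta_shift (β : ℤ → ℝ) (m n a : ℤ) :
    weta L (fun c => β (c + m)) n a = weta L β (n + m) (a + m) := by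
  simp only [weta, wd_shift]

lemma continuous_weta (hL : 1 ≤ L) (n a : ℤ) : Continuous fun β : ℤ → ℝ => weta L β n a :=
  (continuous_const.sub (continuous_wd hL n a)).max continuous_const

lemma sq_le_wN (β : ℤ → ℝ) (a : ℤ) : (L : ℝ) ^ 2 ≤ wN L β a := by
  rw [← weta_self (L := L) β a]
  exact Finset.single_le_sum (f := fun n => weta L β n a ^ 2) (fun _ _ => sq_nonneg _)
    (Finset.mem_Icc.2 ⟨by omega, by omega⟩)

lemma wN_pos (hL : 1 ≤ L) (β : ℤ → ℝ) (a : ℤ) : 0 < wN L β a := by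
  have : (0 : ℝ) < L := by exact_mod_cast hL
  exact lt_of_lt_of_le (by positivity) (sq_le_wN β a)

lemma wN_shift (β : ℤ → ℝ) (m a : ℤ) : wN L (fun c => β (c + m)) a = wN L β (a + m) := by
  unfold wN
  refine Finset.sum_bij' (fun c _ => c + m) (fun c _ => c - m) ?_ ?_ ?_ ?_ ?_
  · intro c hc; simp only [Finset.mem_Icc] at hc ⊢; omega
  · intro c hc; simp only [Finset.mem_Icc] at hc ⊢; omega
  · intro c _; simp
  · intro c _; simp
  · intro c _; rw [weta_shift]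

lemma continuous_wN (hL : 1 ≤ L) (a : ℤ) : Continuous fun β : ℤ → ℝ => wN L β a :=
  continuous_finsetSum _ fun n _ => (continuous_weta hL n a).pow 2

/-! ### the interface -/

theorem xi_nonneg (β : ℤ → ℝ) (n a : ℤ) : 0 ≤ xi L β n a :=
  div_nonneg (weta_nonneg β n a) (Real.sqrt_nonneg _)

theorem continuous_xi (hL : 1 ≤ L) (n a : ℤ) : Continuous fun β : ℤ → ℝ => xi L β n a :=
  (continuous_weta hL n a).div (continuous_wN hL a).sqrt fun β =>
    (Real.sqrt_pos.2 (wN_pos hL β a)).ne'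

theorem xi_shift (β : ℤ → ℝ) (m n a : ℤ) :
    xi L (fun c => β (c + m)) n a = xi L β (n + m) (a + m) := by
  simp only [xi, weta_shift, wN_shift]

theorem xi_far (hL : 1 ≤ L) (β : ℤ → ℝ) {n a : ℤ} (h : (L : ℤ) ≤ |n - a|) : xi L β n a = 0 := by
  simp [xi, weta_far hL β h]

theorem xi_broken (hL : 1 ≤ L) (β : ℤ → ℝ) {n a c : ℤ} (h1 : min n a ≤ c) (h2 : c < max n a)
    (h : β c ≤ 0) : xi L β n a = 0 := by
  have h3 := le_wd_of_broken hL β h1 h2 h
  have : weta L β n a = 0 := max_eq_right (by linarith)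
  simp [xi, this]

theorem sum_xi_sq (hL : 1 ≤ L) (β : ℤ → ℝ) (a : ℤ) {S : Finset ℤ}
    (hS : Finset.Icc (a - L) (a + L) ⊆ S) : ∑ n ∈ S, xi L β n a ^ 2 = 1 := by
  have hp := wN_pos hL β a
  have h1 : ∑ n ∈ S, weta L β n a ^ 2 = wN L β a :=
    (Finset.sum_subset hS fun n _ hn => by rw [weta_out hL β hn]; simp).symm
  simp only [xi, div_pow, Real.sq_sqrt hp.le]
  rw [← Finset.sum_div, h1, div_self hp.ne']

theorem sum_xi_sq_le (hL : 1 ≤ L) (β : ℤ → ℝ) (a : ℤ) (S : Finset ℤ) :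
    ∑ n ∈ S, xi L β n a ^ 2 ≤ 1 := by
  rw [← sum_xi_sq hL β a (S := S ∪ Finset.Icc (a - L) (a + L)) Finset.subset_union_right]
  exact Finset.sum_le_sum_of_subset_of_nonneg Finset.subset_union_left fun _ _ _ => sq_nonneg _

theorem sum_xi_mul_le (hL : 1 ≤ L) (β : ℤ → ℝ) (a b : ℤ) (S : Finset ℤ) :
    ∑ n ∈ S, xi L β n a * xi L β n b ≤ 1 := by
  have h1 := sum_xi_sq_le hL β a S
  have h2 := sum_xi_sq_le hL β b S
  have h3 : ∑ n ∈ S, xi L β n a * xi L β n b ≤
      ∑ n ∈ S, (xi L β n a ^ 2 + xi L β n b ^ 2) / 2 :=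
    Finset.sum_le_sum fun n _ => by nlinarith [sq_nonneg (xi L β n a - xi L β n b)]
  rw [← Finset.sum_div, Finset.sum_add_distrib] at h3
  linarith

lemma sum_weta_mul (hL : 1 ≤ L) (β : ℤ → ℝ) (a b : ℤ) {S : Finset ℤ}
    (hS : Finset.Icc (a - L) (a + L) ⊆ S) :
    ∑ n ∈ S, weta L β n a * weta L β n b =
      ∑ n ∈ Finset.Icc (a - L) (a + L), weta L β n a * weta L β n b :=
  (Finset.sum_subset hS fun n _ hn => by rw [weta_out hL β hn]; simp).symm

lemma weta_mul_low (hL : 1 ≤ L) (β : ℤ → ℝ) (a b : ℤ) {K ε : ℝ} (hε : 0 < ε)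
    (hK : wd L β a b ≤ K) (hLK : 3 * K ^ 2 ≤ ε ^ 2 * L) :
    (1 - ε) * wN L β a ≤ ∑ n ∈ Finset.Icc (a - L) (a + L), weta L β n a * weta L β n b := by
  have h1 : (1 : ℝ) ≤ L := by exact_mod_cast hL
  have hK0 : 0 ≤ K := le_trans (wd_nonneg hL β a b) hK
  have hc : ((Finset.Icc (a - L) (a + L)).card : ℝ) = 2 * L + 1 := by
    have : ((Finset.Icc (a - L) (a + L)).card : ℤ) = 2 * L + 1 := by
      rw [Int.card_Icc, Int.toNat_of_nonneg (by omega)]; ring
    exact_mod_cast this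
  have h2 : ∑ n ∈ Finset.Icc (a - L) (a + L), ((1 - ε / 2) * weta L β n a ^ 2 - K ^ 2 / (2 * ε)) ≤
      ∑ n ∈ Finset.Icc (a - L) (a + L), weta L β n a * weta L β n b := by
    refine Finset.sum_le_sum fun n _ => ?_
    have e1 := weta_sub hL β n a b
    have e2 := weta_nonneg (L := L) β n a
    have e3 : weta L β n a * (weta L β n a - K) ≤ weta L β n a * weta L β n b :=
      mul_le_mul_of_nonneg_left (by linarith) e2
    have e4 : weta L β n a * K ≤ ε / 2 * weta L β n a ^ 2 + K ^ 2 / (2 * ε) := by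
      have : ε / 2 * weta L β n a ^ 2 + K ^ 2 / (2 * ε) - weta L β n a * K =
          (ε * weta L β n a - K) ^ 2 / (2 * ε) := by field_simp; ring
      have h5 : 0 ≤ (ε * weta L β n a - K) ^ 2 / (2 * ε) := by positivity
      linarith
    nlinarith
  rw [Finset.sum_sub_distrib, ← Finset.mul_sum, Finset.sum_const, nsmul_eq_mul, hc] at h2
  have h3 := sq_le_wN (L := L) β a
  have h4 : (2 * L + 1) * (K ^ 2 / (2 * ε)) ≤ ε / 2 * (L : ℝ) ^ 2 := by
    rw [← mul_div_assoc, div_le_iff₀ (by positivity)]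
    nlinarith [sq_nonneg K]
  have h5 : ε / 2 * (L : ℝ) ^ 2 ≤ ε / 2 * wN L β a := mul_le_mul_of_nonneg_left h3 (by positivity)
  change _ - _ ≤ _ at h2
  unfold wN at h5 ⊢
  linarith

lemma sum_xi_mul_low (hL : 1 ≤ L) (β : ℤ → ℝ) (a b : ℤ) {K ε : ℝ} (hε : 0 < ε)
    (hK : wd L β a b ≤ K) (hLK : 3 * K ^ 2 ≤ ε ^ 2 * L) {S : Finset ℤ}
    (hS : Finset.Icc (a - L) (a + L) ⊆ S) : 1 - ε ≤ ∑ n ∈ S, xi L β n a * xi L β n b := by
  have pa := wN_pos hL β a
  have pb := wN_pos hL β b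
  have sa := Real.sqrt_pos.2 pa
  have sb := Real.sqrt_pos.2 pb
  have e : ∑ n ∈ S, xi L β n a * xi L β n b =
      (∑ n ∈ S, weta L β n a * weta L β n b) / (√(wN L β a) * √(wN L β b)) := by
    rw [Finset.sum_div]
    exact Finset.sum_congr rfl fun n _ => by simp only [xi]; field_simp
  have h0 : 0 ≤ ∑ n ∈ S, weta L β n a * weta L β n b :=
    Finset.sum_nonneg fun n _ => mul_nonneg (weta_nonneg _ _ _) (weta_nonneg _ _ _)
  have h1 := weta_mul_low hL β a b hε hK hLK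
  have h2 := weta_mul_low hL β b a hε (by rwa [wd_comm]) hLK
  rw [← sum_weta_mul hL β a b hS] at h1
  have h3 : ∑ n ∈ Finset.Icc (b - L) (b + L), weta L β n b * weta L β n a =
      ∑ n ∈ S, weta L β n a * weta L β n b := by
    rw [← sum_weta_mul hL β b a (S := S ∪ Finset.Icc (b - L) (b + L)) Finset.subset_union_right,
      sum_weta_mul hL β a b hS,
      ← sum_weta_mul hL β a b (S := S ∪ Finset.Icc (b - L) (b + L))
        (hS.trans Finset.subset_union_left)]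
    exact Finset.sum_congr rfl fun n _ => mul_comm _ _
  rw [h3] at h2
  rw [e, le_div_iff₀ (mul_pos sa sb)]
  rcases le_total 1 ε with h | h
  · exact le_trans (mul_nonpos_of_nonpos_of_nonneg (by linarith) (mul_pos sa sb).le) h0
  · have qa := Real.mul_self_sqrt pa.le
    have qb := Real.mul_self_sqrt pb.le
    have : √(wN L β a) * √(wN L β b) ≤ (wN L β a + wN L β b) / 2 := by
      nlinarith [sq_nonneg (√(wN L β a) - √(wN L β b))]
    have := mul_le_mul_of_nonneg_left this (sub_nonneg.2 h)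
    linarith

/-- two sites joined by strong bonds see almost the same windows. -/
theorem exists_xi_close {δ ε : ℝ} (hδ : 0 < δ) (hε : 0 < ε) (R : ℕ) :
    ∃ L : ℕ, 1 ≤ L ∧ ∀ (β : ℤ → ℝ) (a b : ℤ) (S : Finset ℤ), |a - b| ≤ R →
      (∀ c, min a b ≤ c → c < max a b → δ ≤ β c) → Finset.Icc (a - L) (a + L) ⊆ S →
      1 - ε ≤ ∑ n ∈ S, xi L β n a * xi L β n b := by
  have h0 : 0 < min δ 1 := lt_min hδ one_pos
  obtain ⟨L, hL⟩ := exists_nat_ge (3 * ((R : ℝ) * (1 / min δ 1)) ^ 2 / ε ^ 2 + 1)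
  have h1 : 0 ≤ 3 * ((R : ℝ) * (1 / min δ 1)) ^ 2 / ε ^ 2 := by positivity
  have hL1 : 1 ≤ L := by
    have : (1 : ℝ) ≤ L := by linarith
    exact_mod_cast this
  refine ⟨L, hL1, fun β a b S hab hβ hS => sum_xi_mul_low hL1 β a b hε
    (K := (R : ℝ) * (1 / min δ 1)) ?_ ?_ hS⟩
  · refine le_trans (wd_le β h0 (min_le_right _ _) fun c h1 h2 =>
      le_trans (min_le_left _ _) (hβ c h1 h2)) ?_
    refine mul_le_mul_of_nonneg_right ?_ (by positivity)
    exact_mod_cast hab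
  · have : 3 * ((R : ℝ) * (1 / min δ 1)) ^ 2 / ε ^ 2 ≤ L := by linarith
    rw [div_le_iff₀ (by positivity)] at this
    linarith

end Pool.Agent.Lib.MP_f09365_an.N
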