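import Mathlib

namespace Pool.Agent.Lib.MP_f09365_an.N

open scoped InnerProductSpace

/-- A path of left invertible operators in the closure of an increasing union is uniformly bounded
below and uniformly close to one stage. -/
lemma path_level {E : Type*} [NormedAddCommGroup E] [NormedSpace ℂ E]
    (S : ℕ → Set (E →L[ℂ] E)) (hS : Monotone S) (γ γ' : unitInterval → E →L[ℂ] E)
    (hγ : Continuous γ) (hγ' : Continuous γ') (hinv : ∀ t, γ' t * γ t = 1)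
    (hcl : ∀ t, γ t ∈ closure (⋃ k, S k)) :
    ∃ (k : ℕ) (μ : ℝ), 0 < μ ∧ ∀ t, (∀ ξ, μ * ‖ξ‖ ≤ ‖γ t ξ‖) ∧ ∃ T ∈ S k, ‖γ t - T‖ < μ := by
  obtain ⟨C, hC⟩ := (isCompact_range hγ').isBounded.exists_pos_norm_le
  have hμ : 0 < C⁻¹ := inv_pos.2 hC.1
  let U : ℕ → Set unitInterval := fun k => {t | ∃ T ∈ S k, ‖γ t - T‖ < C⁻¹}
  have hUo : ∀ k, IsOpen (U k) := by
    intro k
    have : U k = ⋃ T ∈ S k, {t | ‖γ t - T‖ < C⁻¹} := by
      ext t
      simp [U]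
    rw [this]
    exact isOpen_biUnion fun T _ => isOpen_lt (by fun_prop) continuous_const
  have hUm : Monotone U := fun k l h t ⟨T, hT, hd⟩ => ⟨T, hS h hT, hd⟩
  obtain ⟨k, hk⟩ := isCompact_univ.elim_directed_cover U hUo (fun t _ => by
    obtain ⟨T, hT, hd⟩ := Metric.mem_closure_iff.1 (hcl t) _ hμ
    obtain ⟨k, hk⟩ := Set.mem_iUnion.1 hT
    exact Set.mem_iUnion.2 ⟨k, T, hk, by rwa [← dist_eq_norm]⟩) hUm.directed_le
  refine ⟨k, C⁻¹, hμ, fun t => ⟨fun ξ => ?_, hk (Set.mem_univ t)⟩⟩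
  rw [inv_mul_le_iff₀ hC.1]
  calc ‖ξ‖ = ‖γ' t (γ t ξ)‖ := by rw [← mul_apply_eq_comp, hinv]; rfl
    _ ≤ ‖γ' t‖ * ‖γ t ξ‖ := (γ' t).le_opNorm _
    _ ≤ C * ‖γ t ξ‖ := mul_le_mul_of_nonneg_right (hC.2 _ ⟨t, rfl⟩) (norm_nonneg _)

/-- If a vector is closer to a second vector than to zero, it has a nonzero coordinate on the
support of the second. -/
lemma exists_comp_ne {J : Type*} (ξ η : lp (fun _ : J => ℂ) 2) (h : ‖ξ - η‖ < ‖ξ‖) :
    ∃ i, ξ i ≠ 0 ∧ η i ≠ 0 := by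
  by_contra hcon
  have h0 : ⟪ξ, η⟫_ℂ = 0 := by
    rw [lp.inner_eq_tsum]
    refine (tsum_congr fun i => ?_).trans tsum_zero
    by_cases h1 : ξ i = 0
    · simp [h1]
    · have h2 : η i = 0 := by
        by_contra h2
        exact hcon ⟨i, h1, h2⟩
      simp [h2]
  have h3 := norm_sub_sq (𝕜 := ℂ) ξ η
  rw [h0] at h3
  simp only [map_zero, mul_zero, sub_zero] at h3
  nlinarith [norm_nonneg (ξ - η), norm_nonneg ξ, sq_nonneg ‖η‖]

end Pool.Agent.Lib.MP_f09365_an.N
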