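import Mathlib

namespace Pool.Agent.Lib.MP_f09365_an.N

open NormedSpace
open scoped CStarAlgebra

variable {A : Type*} [CStarAlgebra A]

lemma joined_of_path (γ : ℝ → A) (hγ : Continuous γ) (hu : ∀ t ∈ Set.Icc (0 : ℝ) 1, IsUnit (γ t))
    {u v : Aˣ} (h0 : γ 0 = u) (h1 : γ 1 = v) : Joined u v :=
  ⟨⟨⟨fun t => (hu t t.2).unit, Units.isOpenEmbedding_val.isInducing.continuous_iff.2
    (hγ.comp continuous_subtype_val)⟩, Units.ext h0, Units.ext h1⟩⟩

lemma joined_exp (u : Aˣ) (h : A) : ∃ v : Aˣ, (v : A) = u * exp h ∧ Joined u v := by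
  let : NormedAlgebra ℚ A := .restrictScalars ℚ ℂ A
  refine ⟨u * (isUnit_exp h).unit, rfl, joined_of_path (fun t => u * exp (t • h))
    (continuous_const.mul (exp_continuous.comp (by fun_prop)))
    (fun t _ => u.isUnit.mul (isUnit_exp _)) (by simp) (by simp)⟩

lemma joined_near (u : Aˣ) :
    ∃ ε > 0, ∀ b : A, dist b u < ε → ∃ v : Aˣ, (v : A) = b ∧ Joined u v := by
  obtain ⟨ε, hε, h⟩ := Metric.isOpen_iff.1 (Units.isOpen (R := A)) u u.isUnit
  refine ⟨ε, hε, fun b hb => ⟨(h hb).unit, rfl,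
    joined_of_path (fun t => (1 - t) • (u : A) + t • b) (by fun_prop) (fun t ht => h ?_)
      (by simp) (by simp)⟩⟩
  exact convex_ball _ _ (Metric.mem_ball_self hε) hb (sub_nonneg.2 ht.2) ht.1 (by simp)

lemma joined_unitary (u : Aˣ) : ∃ v : Aˣ, (v : A) ∈ unitary A ∧ Joined u v := by
  let : NormedAlgebra ℚ A := .restrictScalars ℚ ℂ A
  let := CStarAlgebra.spectralOrder A
  have := CStarAlgebra.spectralOrderedRing A
  have hp : IsStrictlyPositive (star (u : A) * u) :=
    ⟨star_mul_self_nonneg _, u.isUnit.star.mul u.isUnit⟩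
  obtain ⟨h, hh, hs⟩ : ∃ h : A, CFC.log (star (u : A) * u) = -h + -h ∧ IsSelfAdjoint h :=
    ⟨(-(1 / 2) : ℝ) • CFC.log (star (u : A) * u), by module,
      (IsSelfAdjoint.all _).smul IsSelfAdjoint.log⟩
  obtain ⟨v, hv, hj⟩ := joined_exp u h
  have e : exp h * exp (-h) = 1 := by
    rw [← exp_add_of_commute (Commute.refl h).neg_right]
    simp
  have e' : exp (-h) * exp h = 1 := by
    rw [← exp_add_of_commute (Commute.refl h).neg_left]
    simp
  have h1 : star (v : A) * v = 1 := by
    rw [hv, star_mul, star_exp, hs.star_eq, mul_assoc, ← mul_assoc (star (u : A)),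
      ← CFC.exp_log _ hp, hh, exp_add_of_commute (Commute.refl _), mul_assoc, e', mul_one, e]
  refine ⟨v, ⟨h1, ?_⟩, hj⟩
  rw [← Units.inv_eq_of_mul_eq_one_left h1]
  simp

/-- A continuous logarithm on the circle away from a neighbourhood of a point. -/
lemma exists_log (l : ℂ) (hl : ‖l‖ = 1) (U : Set ℂ) (hU : IsOpen U) (hlU : l ∈ U) :
    ∃ ψ : ℂ → ℂ, ContinuousOn ψ (Metric.sphere 0 1) ∧
      ∀ z ∈ Metric.sphere (0 : ℂ) 1, z ∉ U → z * Complex.exp (ψ z) = 1 := by
  obtain ⟨ε, hε, h⟩ := Metric.isOpen_iff.1 hU l hlU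
  have hl0 : l ≠ 0 := norm_ne_zero_iff.1 (by simp [hl])
  let χ : ℂ → ℝ := fun z => min 1 (dist z l / ε)
  have hχ : Continuous χ := by fun_prop
  refine ⟨fun z => -(Complex.log (-l) + χ z * (Complex.arg (z / -l) * Complex.I)),
    fun z hz => ContinuousAt.continuousWithinAt ?_, fun z hz hzU => ?_⟩
  · have hz1 : ‖z‖ = 1 := by simpa using hz
    refine (continuousAt_const.add ?_).neg
    by_cases hzl : z = l
    · have h0 : χ z = 0 := by simp [χ, hzl]
      rw [ContinuousAt, h0, Complex.ofReal_zero, zero_mul]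
      refine squeeze_zero_norm (a := fun y => |χ y| * Real.pi) (fun y => ?_) ?_
      · simp only [norm_mul, Complex.norm_real, Real.norm_eq_abs, Complex.norm_I, mul_one]
        exact mul_le_mul_of_nonneg_left (Complex.abs_arg_le_pi _) (abs_nonneg _)
      · have h5 : Continuous fun y => |χ y| * Real.pi := by fun_prop
        simpa [h0] using h5.tendsto z
    · have hs : z / -l ∈ Complex.slitPlane := by
        by_contra hs
        rw [Complex.mem_slitPlane_iff, not_or, not_not, not_lt] at hs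
        have h1 : ‖z / -l‖ = 1 := by simp [hz1, hl]
        have h2 : z / -l = -1 := by
          rw [← Complex.abs_re_eq_norm.2 hs.2, abs_of_nonpos hs.1] at h1
          apply Complex.ext <;> simp only [hs.2, Complex.neg_re, Complex.one_re, Complex.neg_im,
            Complex.one_im, neg_zero]
          linarith
        rw [div_eq_iff (neg_ne_zero.2 hl0)] at h2
        exact hzl (by simpa using h2)
      have h3 : ContinuousAt (fun y : ℂ => Complex.arg (y / -l)) z :=
        ContinuousAt.comp (f := fun y : ℂ => y / -l) (Complex.continuousAt_arg hs) (by fun_prop)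
      exact (Complex.continuous_ofReal.comp hχ).continuousAt.mul
        ((Complex.continuous_ofReal.continuousAt.comp h3).mul continuousAt_const)
  · have hz1 : ‖z‖ = 1 := by simpa using hz
    have h1 : χ z = 1 := min_eq_left ((one_le_div hε).2 (not_lt.1 fun h' => hzU (h h')))
    have h2 := Complex.norm_mul_exp_arg_mul_I (z / -l)
    rw [show ‖z / -l‖ = 1 by simp [hz1, hl], Complex.ofReal_one, one_mul] at h2
    rw [Complex.exp_neg, Complex.exp_add, h1, Complex.ofReal_one, one_mul, h2,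
      Complex.exp_log (neg_ne_zero.2 hl0), mul_div_cancel₀ _ (neg_ne_zero.2 hl0)]
    exact mul_inv_cancel₀ (norm_ne_zero_iff.1 (by simp [hz1]))

/-- The arc trick. -/
lemma arcs (u : Aˣ) (N : ℕ) : ∃ x : Fin (N + 1) → Aˣ, (∀ i, Joined u (x i)) ∧
    ∀ (H : Type*) [NormedAddCommGroup H] [InnerProductSpace ℂ H] [CompleteSpace H]
      (π : A →⋆ₐ[ℂ] (H →L[ℂ] H)), Module.rank ℂ H ≤ N → ∃ i, π (x i) = 1 := by
  obtain ⟨v, hv, hj⟩ := joined_unitary u
  have hinf : (Metric.sphere (0 : ℂ) 1).Infinite :=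
    (isPreconnected_sphere (by simp) 0 1).infinite_of_nontrivial
      ⟨1, by simp, -1, by simp, by norm_num⟩
  let l : Fin (N + 1) → ℂ := fun i => (hinf.natEmbedding _ i : ℂ)
  have hl : Function.Injective l := fun i j h =>
    Fin.ext ((hinf.natEmbedding _).injective (Subtype.ext h))
  have hl1 : ∀ i, ‖l i‖ = 1 := fun i => mem_sphere_zero_iff_norm.1 (hinf.natEmbedding _ i).2
  obtain ⟨U, hU, hd⟩ := (Set.finite_range l).t2_separation
  choose ψ hψ hψ' using fun i => exists_log (l i) (hl1 i) (U (l i)) (hU _).2 (hU _).1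
  choose x hx hx' using fun i => joined_exp v (cfc (ψ i) (v : A))
  refine ⟨x, fun i => hj.trans (hx' i), fun H _ _ _ π hN => ?_⟩
  have : FiniteDimensional ℂ H :=
    Module.rank_lt_aleph0_iff.1 (hN.trans_lt Cardinal.natCast_lt_aleph0)
  have hv' : π v ∈ unitary (H →L[ℂ] H) := Unitary.map_mem π hv
  have hn : IsStarNormal (v : A) := isStarNormal_of_mem_unitary hv
  have hn' : IsStarNormal (π v) := isStarNormal_of_mem_unitary hv'
  have hs : spectrum ℂ (v : A) ⊆ Metric.sphere 0 1 := spectrum.subset_circle_of_unitary hv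
  have hs' : spectrum ℂ (π v) ⊆ Metric.sphere 0 1 := spectrum.subset_circle_of_unitary hv'
  have : ∃ i, ∀ z ∈ spectrum ℂ (π v), z ∉ U (l i) := by
    by_contra h
    push Not at h
    choose μ hμ hμ' using h
    have hμi : Function.Injective μ := fun i j hij => by
      by_contra hne
      exact Set.disjoint_left.1 (hd ⟨i, rfl⟩ ⟨j, rfl⟩ (hl.ne hne)) (hμ' i) (hij ▸ hμ' j)
    choose w hw using fun i => (Module.End.HasEigenvalue.of_mem_spectrum
      ((ContinuousLinearMap.spectrum_eq (f := π v)).subset (hμ i))).exists_hasEigenvector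
    have := (Module.End.eigenvectors_linearIndependent' _ μ hμi w hw).cardinal_lift_le_rank
    have h2 := this.trans (Cardinal.lift_le.2 hN)
    simp only [Cardinal.mk_fintype, Fintype.card_fin, Cardinal.lift_natCast, Nat.cast_le] at h2
    omega
  obtain ⟨i, hi⟩ := this
  refine ⟨i, ?_⟩
  have h1 := (hψ i).mono hs
  have e : (x i : A) = cfc (fun z => z * Complex.exp (ψ i z)) (v : A) := by
    rw [hx, cfc_mul _ _ (v : A) (continuousOn_id' _) h1.cexp, cfc_id' ℂ (v : A),
      ← CFC.complex_exp_eq_normedSpace_exp, ← cfc_comp' Complex.exp (ψ i) (v : A)]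
  have hπ : Continuous π := map_continuous π
  rw [e, π.map_cfc (fun z => z * Complex.exp (ψ i z)) (v : A) ((continuousOn_id' _).mul h1.cexp)
    hπ hn hn', ← cfc_one ℂ (π v)]
  exact cfc_congr fun z hz => hψ' i z (hs' hz) (hi z hz)

end Pool.Agent.Lib.MP_f09365_an.N
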